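import Pool.Agent.Lib.MP_d9b062_al.Defs2

/-!
# General representations
-/

namespace Pool.Agent.Lib.MP_d9b062_al

namespace RepAux

variable {N : ℕ}

/-- matrix entry -/
noncomputable def ent (T : Op N) (i j : Fin N) : ℝ := T (EuclideanSpace.single j 1) i

lemma ent_mul (S T : Op N) (i j : Fin N) : ent (S * T) i j = ∑ k, ent S i k * ent T k j := by
  have h : T (EuclideanSpace.single j 1) =
      ∑ k, ent T k j • (EuclideanSpace.single k (1 : ℝ) : V N) := by
    ext l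
    simp [ent, Pi.single_apply]
  change S (T (EuclideanSpace.single j 1)) i = _
  rw [h, map_sum]
  simp only [map_smul]
  rw [show (∑ k, ent T k j • S (EuclideanSpace.single k 1) : V N) i =
    ∑ k, ent T k j * S (EuclideanSpace.single k 1) i by simp]
  exact Finset.sum_congr rfl fun k _ => mul_comm _ _

/-- translates of polynomials are polynomials -/
lemma exists_translate (p : MvPolynomial (Fin N × Fin N) ℝ) (A B : Op N) :
    ∃ q : MvPolynomial (Fin N × Fin N) ℝ, ∀ T : Op N, polyVal q T = polyVal p (A * T * B) := by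
  refine ⟨MvPolynomial.bind₁ (fun ij => ∑ k, ∑ l, MvPolynomial.C (ent A ij.1 k * ent B l ij.2) *
    MvPolynomial.X (k, l)) p, fun T => ?_⟩
  unfold polyVal
  rw [← MvPolynomial.coe_aeval_eq_eval, ← MvPolynomial.coe_aeval_eq_eval]
  simp only [RingHom.coe_coe]
  rw [MvPolynomial.aeval_bind₁]
  congr 2
  ext ij
  have h : (A * T * B) (EuclideanSpace.single ij.2 1) ij.1 = ent (A * T * B) ij.1 ij.2 := rfl
  rw [h, ent_mul]
  simp only [ent_mul, map_sum, map_mul, MvPolynomial.aeval_C, MvPolynomial.aeval_X]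
  rw [Finset.sum_comm]
  refine Finset.sum_congr rfl fun l _ => ?_
  rw [Finset.sum_mul]
  refine Finset.sum_congr rfl fun k _ => ?_
  change ent A ij.1 k * ent B l ij.2 * ent T k l = _
  ring

end RepAux

open RepAux

/-- `A` is a Cartan subspace of the Lie algebra of `G`: a maximal commuting space of hyperbolic
(that is, `ℝ`-diagonalizable) elements of the Lie algebra. -/
structure IsCartanSubspace {N : ℕ} (G : Subgroup (Op N)ˣ) (A : Submodule ℝ (Op N)) : Prop where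
  mem_lieAlg : ∀ X ∈ A, X ∈ lieAlg G
  hyperbolic : ∀ X ∈ A, IsHyperbolic X
  commute : ∀ X ∈ A, ∀ Y ∈ A, X * Y = Y * X
  maximal : ∀ B : Submodule ℝ (Op N), A ≤ B → (∀ X ∈ B, X ∈ lieAlg G ∧ IsHyperbolic X) →
    (∀ X ∈ B, ∀ Y ∈ B, X * Y = Y * X) → B ≤ A

namespace RepAux

/-- The points of the Zariski closure of `S`. -/
def InClosure {N : ℕ} (S : Subgroup (Op N)ˣ) (g : (Op N)ˣ) : Prop :=
  ∀ p : MvPolynomial (Fin N × Fin N) ℝ,
    (∀ h ∈ S, polyVal p (h : Op N) = 0) → polyVal p (g : Op N) = 0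

lemma inClosure_mul {N : ℕ} {S : Subgroup (Op N)ˣ} {g h : (Op N)ˣ}
    (hg : InClosure S g) (hh : InClosure S h) : InClosure S (g * h) := by
  intro p hp
  have h1 : ∀ s ∈ S, polyVal p ((s : Op N) * (h : Op N)) = 0 := by
    intro s hs
    obtain ⟨q, hq⟩ := exists_translate p (s : Op N) 1
    have h2 := hh q fun t ht => by
      rw [hq, mul_one, ← Units.val_mul]
      exact hp _ (S.mul_mem hs ht)
    rwa [hq, mul_one] at h2
  obtain ⟨q, hq⟩ := exists_translate p 1 (h : Op N)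
  have h2 := hg q fun t ht => by
    rw [hq, one_mul]
    exact h1 t ht
  rw [hq, one_mul] at h2
  rwa [Units.val_mul]

lemma inClosure_inv {N : ℕ} {S : Subgroup (Op N)ˣ} {g : (Op N)ˣ}
    (hg : InClosure S g) : InClosure S g⁻¹ := by
  let I : ℕ → Ideal (MvPolynomial (Fin N × Fin N) ℝ) := fun n =>
    { carrier := {p | ∀ h, InClosure S h → polyVal p ((g ^ n * h : (Op N)ˣ) : Op N) = 0}
      add_mem' := fun {a b} ha hb h hh => by
        have h1 := ha h hh
        have h2 := hb h hh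
        unfold polyVal at h1 h2 ⊢
        rw [map_add, h1, h2, add_zero]
      zero_mem' := fun h hh => by
        unfold polyVal
        rw [map_zero]
      smul_mem' := fun c a ha h hh => by
        have h1 := ha h hh
        unfold polyVal at h1 ⊢
        rw [smul_eq_mul, map_mul, h1, mul_zero] }
  have hmono : Monotone I := by
    refine monotone_nat_of_le_succ fun n p hp h hh => ?_
    have h1 := hp (g * h) (inClosure_mul hg hh)
    rwa [← mul_assoc, ← pow_succ] at h1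
  obtain ⟨n, hn⟩ := monotone_stabilizes_iff_noetherian.2
    (inferInstance : IsNoetherianRing (MvPolynomial (Fin N × Fin N) ℝ)) ⟨I, hmono⟩
  have hI : I (n + 1) = I n := (hn (n + 1) (Nat.le_succ n)).symm
  intro p hp
  obtain ⟨q, hq⟩ := exists_translate p (((g ^ (n + 1))⁻¹ : (Op N)ˣ) : Op N) 1
  have h1 : q ∈ I (n + 1) := by
    intro h hh
    rw [hq, mul_one, ← Units.val_mul, inv_mul_cancel_left]
    exact hh p hp
  rw [hI] at h1
  have h2 := h1 1 (fun p hp => hp 1 S.one_mem)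
  rw [hq, mul_one, mul_one, ← Units.val_mul] at h2
  have h3 : (g ^ (n + 1))⁻¹ * g ^ n = g⁻¹ := by
    rw [pow_succ', mul_inv_rev]
    group
  rwa [h3] at h2

end RepAux

/-- The Zariski closure in `GL_N(ℝ)` of a group of invertible operators. -/
def zariskiClosure {N : ℕ} (S : Subgroup (Op N)ˣ) : Subgroup (Op N)ˣ where
  carrier := {g | ∀ p : MvPolynomial (Fin N × Fin N) ℝ,
    (∀ h ∈ S, polyVal p (h : Op N) = 0) → polyVal p (g : Op N) = 0}
  mul_mem' := fun hg hh => inClosure_mul hg hh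
  one_mem' := fun _ hp => hp 1 S.one_mem
  inv_mem' := fun hg => inClosure_inv hg

/-- The group `𝒢 ⋉ ℝ^N` attached to a representation `ρ` of `𝒢` on `ℝ^N`. -/
@[ext]
structure AffRep {𝒢 : Type*} [Group 𝒢] {N : ℕ} (ρ : 𝒢 →* (Op N)ˣ) where
  /-- the linear part -/
  lin : 𝒢
  /-- the translation part -/
  tr : V N

namespace AffRep

variable {𝒢 : Type*} [Group 𝒢] {N : ℕ} {ρ : 𝒢 →* (Op N)ˣ}

noncomputable instance : One (AffRep ρ) := ⟨⟨1, 0⟩⟩
noncomputable instance : Mul (AffRep ρ) :=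
  ⟨fun x y => ⟨x.lin * y.lin, x.tr + (ρ x.lin : Op N) y.tr⟩⟩
noncomputable instance : Inv (AffRep ρ) :=
  ⟨fun x => ⟨x.lin⁻¹, -((ρ x.lin⁻¹ : Op N) x.tr)⟩⟩

@[simp] lemma one_lin : (1 : AffRep ρ).lin = 1 := rfl
@[simp] lemma one_tr : (1 : AffRep ρ).tr = 0 := rfl
@[simp] lemma mul_lin (x y : AffRep ρ) : (x * y).lin = x.lin * y.lin := rfl
@[simp] lemma mul_tr (x y : AffRep ρ) : (x * y).tr = x.tr + (ρ x.lin : Op N) y.tr := rfl
@[simp] lemma inv_lin (x : AffRep ρ) : (x⁻¹).lin = x.lin⁻¹ := rfl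
@[simp] lemma inv_tr (x : AffRep ρ) : (x⁻¹).tr = -((ρ x.lin⁻¹ : Op N) x.tr) := rfl

noncomputable instance : Group (AffRep ρ) where
  mul_assoc x y z := by
    refine AffRep.ext (mul_assoc _ _ _) ?_
    simp only [mul_tr, mul_lin, map_mul, map_add, Units.val_mul]
    rw [add_assoc]
    rfl
  one_mul x := by
    refine AffRep.ext (one_mul _) ?_
    simp
  mul_one x := by
    refine AffRep.ext (mul_one _) ?_
    simp
  inv_mul_cancel x := by
    refine AffRep.ext (inv_mul_cancel _) ?_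
    simp

/-- The affine map of `ℝ^N` given by an element of `𝒢 ⋉ ℝ^N`. -/
noncomputable def act (x : AffRep ρ) (v : V N) : V N := (ρ x.lin : Op N) v + x.tr

/-- the affine transformation as an element of `GL ⋉ ℝ^N` -/
noncomputable def toAff (ρ : 𝒢 →* (Op N)ˣ) : AffRep ρ →* Aff (V N) where
  toFun x := ⟨ρ x.lin, x.tr⟩
  map_one' := by
    refine Aff.ext ?_ rfl
    change ρ 1 = 1
    exact map_one ρ
  map_mul' x y := by
    refine Aff.ext ?_ rfl
    change ρ (x.lin * y.lin) = ρ x.lin * ρ y.lin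
    exact map_mul ρ _ _

end AffRep

/-- The representation `ρ` of `𝒢` on `ℝ^N` is *Milnor*: no subgroup `Γ` of `𝒢 ⋉ ℝ^N` is non-abelian
free, has linear part Zariski dense in `ρ(𝒢)`, and acts properly discontinuously on `ℝ^N`. -/
def IsMilnorRep {𝒢 : Type*} [Group 𝒢] {N : ℕ} (ρ : 𝒢 →* (Op N)ˣ) : Prop :=
  ¬ ∃ Γ : Subgroup (AffRep ρ),
    (∃ (κ : Type) (_ : Nontrivial κ), Nonempty (Γ ≃* FreeGroup κ)) ∧
    (∀ p : MvPolynomial (Fin N × Fin N) ℝ,
      (∀ γ ∈ Γ, polyVal p (ρ γ.lin : Op N) = 0) → ∀ g, polyVal p (ρ g : Op N) = 0) ∧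
    (∀ K : Set (V N), IsCompact K → {γ : AffRep ρ | γ ∈ Γ ∧ (γ.act '' K ∩ K).Nonempty}.Finite)

/-- Condition (S) for the representation `ρ` of `𝒢`, the Cartan subspace `A` and the representative
`w` of the longest element: some vector fixed by the centralizer of `A` is not fixed by `w`. -/
def CondSRep {𝒢 : Type*} [Group 𝒢] {N : ℕ} (ρ : 𝒢 →* (Op N)ˣ) (A : Submodule ℝ (Op N)) (w : 𝒢) :
    Prop :=
  ∃ v : V N, (∀ l : 𝒢, (∀ X ∈ A, (ρ l : Op N) * X = X * (ρ l : Op N)) → (ρ l : Op N) v = v) ∧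
    (ρ w : Op N) v ≠ v

/-- Reduction of representations to linear groups. -/
theorem isMilnorRep_of_isMilnor {𝒢 : Type*} [Group 𝒢] {N : ℕ} (ρ : 𝒢 →* (Op N)ˣ)
    (A : Submodule ℝ (Op N)) (w : 𝒢) (hS : ¬ CondSRep ρ A w)
    (hmain : ¬ CondS (zariskiClosure ρ.range) A (ρ w) → IsMilnor (zariskiClosure ρ.range)) :
    IsMilnorRep ρ := by
  have hsub : ∀ g, ρ g ∈ zariskiClosure ρ.range := fun g p hp => hp _ ⟨g, rfl⟩
  have hM : IsMilnor (zariskiClosure ρ.range) := by
    apply hmain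
    rintro ⟨v, hv, hw⟩
    exact hS ⟨v, fun l hl => hv _ ⟨hsub l, hl⟩, hw⟩
  rintro ⟨Γ, ⟨κ, hκ, ⟨e⟩⟩, hdense, hprop⟩
  apply hM
  let φ := AffRep.toAff ρ
  have hact : ∀ x : AffRep ρ, (φ x).act = x.act := fun x => rfl
  let ψ : Γ →* Aff (V N) := φ.comp Γ.subtype
  -- the kernel is trivial
  have hinj : Function.Injective ψ := by
    rw [injective_iff_map_eq_one]
    intro γ hγ
    have hfin := hprop {0} isCompact_singleton
    have hpow : ∀ n : ℕ, φ ((γ ^ n : Γ) : AffRep ρ) = 1 := by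
      intro n
      have h1 : φ (γ : AffRep ρ) = 1 := hγ
      rw [Subgroup.coe_pow, map_pow, h1, one_pow]
    have hmem : ∀ n : ℕ, ((γ ^ n : Γ) : AffRep ρ) ∈
        {γ : AffRep ρ | γ ∈ Γ ∧ (γ.act '' {0} ∩ {0}).Nonempty} := by
      intro n
      refine ⟨(γ ^ n).2, 0, ⟨0, rfl, ?_⟩, rfl⟩
      rw [← hact, hpow]
      simp [Aff.act]
    by_contra hne
    have hinj' : Function.Injective fun n : ℕ => ((γ ^ n : Γ) : AffRep ρ) := by
      intro a b hab
      have h1 : γ ^ a = γ ^ b := Subtype.ext hab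
      have h2 : (e γ) ^ a = (e γ) ^ b := by rw [← map_pow, ← map_pow, h1]
      have h3 : e γ ≠ 1 := fun h => hne (by
        have := congrArg e.symm h
        simpa using this)
      exact (injective_pow_iff_not_isOfFinOrder.2 (not_isOfFinOrder_of_isMulTorsionFree h3)) h2
    exact (Set.infinite_of_injective_forall_mem hinj' hmem) hfin
  refine ⟨ψ.range, ⟨κ, hκ, ⟨(MonoidHom.ofInjective hinj).symm.trans e⟩⟩, ?_, ?_, ?_⟩
  · rintro _ ⟨γ, rfl⟩
    exact hsub _
  · intro p hp g hg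
    refine hg p ?_
    rintro _ ⟨x, rfl⟩
    refine hdense p (fun γ hγ => ?_) x
    exact hp (ψ ⟨γ, hγ⟩) ⟨⟨γ, hγ⟩, rfl⟩
  · intro K hK
    refine ((hprop K hK).image φ).subset ?_
    rintro _ ⟨⟨γ, rfl⟩, hne⟩
    exact ⟨(γ : AffRep ρ), ⟨γ.2, hne⟩, rfl⟩

end Pool.Agent.Lib.MP_d9b062_al
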