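import Pool.Agent.Lib.MP_d9b062_al.Interface

/-!
# The representation spanned by the translates of a polynomial function
-/

namespace Pool.Agent.Lib.MP_d9b062_al

namespace Lox

open NormedSpace Filter
open scoped Topology

variable {N : ℕ}

/-- the right translates of a polynomial function span a finite-dimensional space -/
lemma fg_translates {F : Op N → ℝ} (hF : F ∈ PolyFun (Op N)) :
    ∃ U : Submodule ℝ (Op N → ℝ), U.FG ∧ ∀ T : Op N, (fun h => F (h * T)) ∈ U := by
  refine PolyFun.induction (p := fun F => ∃ U : Submodule ℝ (Op N → ℝ), U.FG ∧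
    ∀ T : Op N, (fun h => F (h * T)) ∈ U) ?_ ?_ ?_ ?_ hF
  · intro φ
    let L : (Op N →ₗ[ℝ] ℝ) →ₗ[ℝ] (Op N → ℝ) :=
      { toFun := fun ψ => ψ, map_add' := fun _ _ => rfl, map_smul' := fun _ _ => rfl }
    refine ⟨LinearMap.range L, ?_, fun T => ⟨{
      toFun := fun h => φ (h * T)
      map_add' := fun a b => by rw [add_mul, map_add]
      map_smul' := fun c a => by
        rw [show (c • a) * T = c • (a * T) from rfl, map_smul, RingHom.id_apply] }, ?_⟩⟩
    · have h1 : (⊤ : Submodule ℝ (Op N →ₗ[ℝ] ℝ)).FG := Module.Finite.fg_top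
      have := h1.map L
      rwa [Submodule.map_top] at this
    · ext h; rfl
  · intro c
    refine ⟨Submodule.span ℝ {fun _ => c}, Submodule.fg_span_singleton _, fun T => ?_⟩
    exact Submodule.mem_span_singleton_self _
  · rintro f g ⟨U, hU, hf⟩ ⟨U', hU', hg⟩
    exact ⟨U ⊔ U', hU.sup hU', fun T => Submodule.add_mem_sup (hf T) (hg T)⟩
  · rintro f g ⟨U, hU, hf⟩ ⟨U', hU', hg⟩
    exact ⟨U * U', hU.mul hU', fun T => Submodule.mul_mem_mul (hf T) (hg T)⟩

/-- the space spanned by the right translates, as a representation of `G` -/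
theorem exists_rep (G : Subgroup (Op N)ˣ) {F : Op N → ℝ} (hF : F ∈ PolyFun (Op N)) :
    ∃ (d : ℕ) (ρ : G →* ((Fin d → ℝ) →L[ℝ] (Fin d → ℝ))) (val : (Fin d → ℝ) →ₗ[ℝ] (G → ℝ))
      (w0 : Fin d → ℝ), Function.Injective val ∧ (∀ g w h, val (ρ g w) h = val w (h * g)) ∧
      (∀ h : G, val w0 h = F ((h : (Op N)ˣ) : Op N)) ∧
      (∀ U : Submodule ℝ (Fin d → ℝ), (∀ g, ρ g w0 ∈ U) → U = ⊤) ∧
      (∀ w, ∃ F' ∈ PolyFun (Op N), ∀ h : G, val w h = F' ((h : (Op N)ˣ) : Op N)) := by
  -- the functions on `G`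
  let res : (Op N → ℝ) →ₗ[ℝ] (G → ℝ) := LinearMap.funLeft ℝ ℝ (fun g : G => ((g : (Op N)ˣ) : Op N))
  let R : G → ((G → ℝ) →ₗ[ℝ] (G → ℝ)) := fun g => LinearMap.funLeft ℝ ℝ (fun h => h * g)
  have hR : ∀ g f h, R g f h = f (h * g) := fun g f h => rfl
  let f0 : G → ℝ := res F
  let W0 : Submodule ℝ (G → ℝ) := Submodule.span ℝ (Set.range fun g => R g f0)
  obtain ⟨U, hU, hUF⟩ := fg_translates hF
  have hW0 : FiniteDimensional ℝ W0 := by
    have h1 : W0 ≤ U.map res := by
      refine Submodule.span_le.2 ?_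
      rintro _ ⟨g, rfl⟩
      refine ⟨_, hUF ((g : (Op N)ˣ) : Op N), ?_⟩
      ext h
      rfl
    have h2 : FiniteDimensional ℝ (U.map res) := Module.Finite.iff_fg.2 (hU.map res)
    exact Submodule.finiteDimensional_of_le h1
  have hstab : ∀ g, ∀ f ∈ W0, R g f ∈ W0 := by
    intro g f hf
    have : W0 ≤ W0.comap (R g) := by
      refine Submodule.span_le.2 ?_
      rintro _ ⟨g', rfl⟩
      refine Submodule.subset_span ⟨g * g', ?_⟩
      ext h
      simp only [hR, mul_assoc]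
    exact this hf
  have hpoly : ∀ f ∈ W0, ∃ F' ∈ PolyFun (Op N), ∀ h : G, f h = F' ((h : (Op N)ˣ) : Op N) := by
    intro f hf
    refine Submodule.span_induction (p := fun f _ => ∃ F' ∈ PolyFun (Op N), ∀ h : G,
      f h = F' ((h : (Op N)ˣ) : Op N)) ?_ ?_ ?_ ?_ hf
    · rintro _ ⟨g, rfl⟩
      exact ⟨_, PolyFun.comp hF (IsPolyMap.id.mul (IsPolyMap.const ((g : (Op N)ˣ) : Op N))),
        fun h => rfl⟩
    · exact ⟨_, PolyFun.const 0, fun h => rfl⟩
    · rintro f g _ _ ⟨F', h1, h2⟩ ⟨F'', h3, h4⟩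
      exact ⟨_, PolyFun.add h1 h3, fun h => by rw [Pi.add_apply, h2, h4]⟩
    · rintro a f _ ⟨F', h1, h2⟩
      exact ⟨_, PolyFun.mul (PolyFun.const a) h1, fun h => by
        rw [Pi.smul_apply, h2, smul_eq_mul]⟩
  let b := Module.finBasis ℝ W0
  let e : W0 ≃ₗ[ℝ] (Fin (Module.finrank ℝ W0) → ℝ) := b.equivFun
  let val : (Fin (Module.finrank ℝ W0) → ℝ) →ₗ[ℝ] (G → ℝ) := W0.subtype ∘ₗ e.symm.toLinearMap
  have hval : Function.Injective val := W0.injective_subtype.comp e.symm.injective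
  let r : G → ((Fin (Module.finrank ℝ W0) → ℝ) →L[ℝ] (Fin (Module.finrank ℝ W0) → ℝ)) :=
    fun g => LinearMap.toContinuousLinearMap
      (e.toLinearMap ∘ₗ ((R g).restrict (hstab g)) ∘ₗ e.symm.toLinearMap)
  have hr : ∀ g w h, val (r g w) h = val w (h * g) := by
    intro g w h
    change W0.subtype (e.symm (e ((R g).restrict (hstab g) (e.symm w)))) h = _
    rw [e.symm_apply_apply]
    rfl
  have hr' : ∀ g w, val (r g w) = fun h => val w (h * g) := fun g w => funext (hr g w)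
  refine ⟨Module.finrank ℝ W0, { toFun := r, map_one' := ?_, map_mul' := ?_ }, val,
    e ⟨f0, Submodule.subset_span ⟨1, by ext h; simp [hR]⟩⟩, hval, hr, ?_, ?_, ?_⟩
  · refine ContinuousLinearMap.ext fun w => hval ?_
    rw [hr']
    ext h
    simp
  · intro g g'
    refine ContinuousLinearMap.ext fun w => hval ?_
    change val (r (g * g') w) = val (r g (r g' w))
    rw [hr', hr', hr']
    ext h
    simp only [mul_assoc]
  · intro h
    change W0.subtype (e.symm (e _)) h = _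
    rw [e.symm_apply_apply]
    rfl
  · intro U hUg
    have h1 : W0 ≤ (U.comap e.toLinearMap).map W0.subtype := by
      refine Submodule.span_le.2 ?_
      rintro _ ⟨g, rfl⟩
      have hm : R g f0 ∈ W0 := Submodule.subset_span ⟨g, rfl⟩
      refine ⟨⟨R g f0, hm⟩, ?_, rfl⟩
      have := hUg g
      have h2 : e ⟨R g f0, hm⟩ = r g (e ⟨f0, Submodule.subset_span ⟨1, by ext h; simp [hR]⟩⟩) := by
        refine hval ?_
        rw [hr']
        ext h
        change W0.subtype (e.symm (e _)) h = W0.subtype (e.symm (e _)) (h * g)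
        rw [e.symm_apply_apply, e.symm_apply_apply]
        rfl
      change e ⟨R g f0, hm⟩ ∈ U
      rw [h2]
      exact this
    rw [eq_top_iff]
    intro w _
    obtain ⟨v, hv, hvw⟩ := h1 (e.symm w).2
    have h3 : v = e.symm w := Subtype.ext hvw
    rw [h3] at hv
    have h4 : e (e.symm w) ∈ U := hv
    rwa [e.apply_symm_apply] at h4
  · intro w
    exact hpoly _ (e.symm w).2

end Lox

end Pool.Agent.Lib.MP_d9b062_al
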