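import Pool.Agent.Lib.MP_d9b062_al_h20.Lox1
import Pool.Agent.Lib.MP_d9b062_al_h20.Lox2
import Pool.Agent.Lib.MP_d9b062_al.GM

/-!
# The first loxodromic sequence
-/

namespace Pool.Agent.Lib.MP_d9b062_al

namespace Lox

open NormedSpace Filter
open scoped Topology

variable {N : ℕ}

/-! ### functionals separating points -/

lemma dual_span {E : Type*} [AddCommGroup E] [Module ℝ E] [FiniteDimensional ℝ E] {K : Type*}
    (L : K → Module.Dual ℝ E) (h : ∀ v, (∀ k, L k v = 0) → v = 0) :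
    Submodule.span ℝ (Set.range L) = ⊤ := by
  have h1 : (Submodule.span ℝ (Set.range L)).dualCoannihilator = ⊥ := by
    rw [Submodule.eq_bot_iff]
    intro v hv
    refine h v fun k => ?_
    rw [Submodule.mem_dualCoannihilator] at hv
    exact hv _ (Submodule.subset_span ⟨k, rfl⟩)
  have h2 := Subspace.dualCoannihilator_dualAnnihilator_eq
    (W := Submodule.span ℝ (Set.range L))
  rw [← h2, h1, Submodule.dualAnnihilator_bot]

section Emb

variable {d : ℕ} {X : Type*}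

/-- matrix coefficients -/
def coef (val : X → (Fin d → ℝ) →ₗ[ℝ] ℝ) :
    ((Fin d → ℝ) →L[ℝ] (Fin d → ℝ)) →ₗ[ℝ] ((Fin d → ℝ) × X → ℝ) where
  toFun A p := val p.2 (A p.1)
  map_add' A B := by ext p; simp
  map_smul' a A := by ext p; simp

lemma coef_embedding {val : X → (Fin d → ℝ) →ₗ[ℝ] ℝ} (h : ∀ w, (∀ x, val x w = 0) → w = 0) :
    Topology.IsClosedEmbedding (coef val) := by
  refine LinearMap.isClosedEmbedding_of_injective ?_
  rw [LinearMap.ker_eq_bot']
  intro A hA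
  refine ContinuousLinearMap.ext fun w => h _ fun x => ?_
  exact congrFun hA (w, x)

lemma coef_tendsto {val : X → (Fin d → ℝ) →ₗ[ℝ] ℝ} (h : ∀ w, (∀ x, val x w = 0) → w = 0)
    {κ : Type*} {l : Filter κ} {A : κ → ((Fin d → ℝ) →L[ℝ] (Fin d → ℝ))}
    {B : (Fin d → ℝ) →L[ℝ] (Fin d → ℝ)}
    (hA : ∀ w x, Tendsto (fun n => val x (A n w)) l (𝓝 (val x (B w)))) : Tendsto A l (𝓝 B) := by
  rw [(coef_embedding h).isInducing.tendsto_nhds_iff, tendsto_pi_nhds]
  rintro ⟨w, x⟩
  exact hA w x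

lemma coef_apply_tendsto (val : X → (Fin d → ℝ) →ₗ[ℝ] ℝ)
    {κ : Type*} {l : Filter κ} {A : κ → ((Fin d → ℝ) →L[ℝ] (Fin d → ℝ))}
    {B : (Fin d → ℝ) →L[ℝ] (Fin d → ℝ)} (hA : Tendsto A l (𝓝 B)) (w : Fin d → ℝ) (x : X) :
    Tendsto (fun n => val x (A n w)) l (𝓝 (val x (B w))) := by
  have h1 : Continuous fun A : (Fin d → ℝ) →L[ℝ] (Fin d → ℝ) => val x (A w) :=
    ((val x).continuous_of_finiteDimensional).comp
      (ContinuousLinearMap.apply ℝ (Fin d → ℝ) w).continuous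
  exact (h1.tendsto B).comp hA

lemma coef_subseq {val : X → (Fin d → ℝ) →ₗ[ℝ] ℝ} (h : ∀ w, (∀ x, val x w = 0) → w = 0)
    {A : ℕ → ((Fin d → ℝ) →L[ℝ] (Fin d → ℝ))}
    (hA : ∀ w x, ∃ C : ℝ, ∀ n, |val x (A n w)| ≤ C) :
    ∃ B : (Fin d → ℝ) →L[ℝ] (Fin d → ℝ), ∃ φ : ℕ → ℕ, StrictMono φ ∧
      Tendsto (A ∘ φ) atTop (𝓝 B) := by
  choose C hC using hA
  have h1 : IsCompact (Set.pi Set.univ fun p : (Fin d → ℝ) × X => Set.Icc (-C p.1 p.2) (C p.1 p.2)) :=
    isCompact_univ_pi fun p => isCompact_Icc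
  have h2 := (coef_embedding h).isCompact_preimage h1
  obtain ⟨B, -, φ, hφ, hB⟩ := h2.tendsto_subseq (x := A) fun n p _ => by
    have := hC p.1 p.2 n
    rw [abs_le] at this
    exact this
  exact ⟨B, φ, hφ, hB⟩

end Emb

section Rep

variable {G : Subgroup (Op N)ˣ} {d : ℕ} {ρ : G →* ((Fin d → ℝ) →L[ℝ] (Fin d → ℝ))}
  {val : (Fin d → ℝ) →ₗ[ℝ] (G → ℝ)} {w0 : Fin d → ℝ}

/-- evaluation at points of `X` -/
def ev (val : (Fin d → ℝ) →ₗ[ℝ] (G → ℝ)) (X : Set G) : X → (Fin d → ℝ) →ₗ[ℝ] ℝ :=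
  fun x => (LinearMap.proj (x : G)) ∘ₗ val

lemma rho_poly (hinj : Function.Injective val) (hr : ∀ g w h, val (ρ g w) h = val w (h * g))
    (hp : ∀ w, ∃ F' ∈ PolyFun (Op N), ∀ h : G, val w h = F' ((h : (Op N)ˣ) : Op N))
    {F : ((Fin d → ℝ) →L[ℝ] (Fin d → ℝ)) → ℝ}
    (hF : F ∈ PolyFun ((Fin d → ℝ) →L[ℝ] (Fin d → ℝ))) :
    ∃ F' ∈ PolyFun (Op N), ∀ g : G, F (ρ g) = F' ((g : (Op N)ˣ) : Op N) := by
  refine PolyFun.induction (p := fun F => ∃ F' ∈ PolyFun (Op N), ∀ g : G,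
    F (ρ g) = F' ((g : (Op N)ˣ) : Op N)) ?_ ?_ ?_ ?_ hF
  · intro φ
    let L : ((Fin d → ℝ) × G) → Module.Dual ℝ ((Fin d → ℝ) →L[ℝ] (Fin d → ℝ)) := fun p =>
      (LinearMap.proj p) ∘ₗ (coef (fun x : G => (LinearMap.proj x) ∘ₗ val))
    have hL : ∀ p A, L p A = val (A p.1) p.2 := fun p A => rfl
    have htop := dual_span L (fun A hA => by
      refine ContinuousLinearMap.ext fun w => hinj ?_
      ext h
      have := hA (w, h)
      rw [hL] at this
      simpa using this)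
    have hφ : φ ∈ Submodule.span ℝ (Set.range L) := by rw [htop]; trivial
    refine Submodule.span_induction (p := fun φ _ => ∃ F' ∈ PolyFun (Op N), ∀ g : G,
      φ (ρ g) = F' ((g : (Op N)ˣ) : Op N)) ?_ ?_ ?_ ?_ hφ
    · rintro _ ⟨⟨w, h⟩, rfl⟩
      obtain ⟨F', h1, h2⟩ := hp w
      refine ⟨_, PolyFun.comp h1 ((IsPolyMap.const ((h : (Op N)ˣ) : Op N)).mul IsPolyMap.id),
        fun g => ?_⟩
      rw [hL]
      simp only [hr, h2]
      rfl
    · exact ⟨_, PolyFun.const 0, fun g => rfl⟩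
    · rintro f g _ _ ⟨F', h1, h2⟩ ⟨F'', h3, h4⟩
      exact ⟨_, PolyFun.add h1 h3, fun h => by rw [LinearMap.add_apply, h2, h4]⟩
    · rintro a f _ ⟨F', h1, h2⟩
      exact ⟨_, PolyFun.mul (PolyFun.const a) h1, fun h => by
        rw [LinearMap.smul_apply, h2, smul_eq_mul]⟩
  · intro c
    exact ⟨_, PolyFun.const c, fun g => rfl⟩
  · rintro f g ⟨F', h1, h2⟩ ⟨F'', h3, h4⟩
    exact ⟨_, PolyFun.add h1 h3, fun h => by
      change f (ρ h) + g (ρ h) = _
      rw [h2, h4]⟩
  · rintro f g ⟨F', h1, h2⟩ ⟨F'', h3, h4⟩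
    exact ⟨_, PolyFun.mul h1 h3, fun h => by
      change f (ρ h) * g (ρ h) = _
      rw [h2, h4]⟩

lemma rho_tendsto (hinj : Function.Injective val) (hr : ∀ g w h, val (ρ g w) h = val w (h * g))
    (hp : ∀ w, ∃ F' ∈ PolyFun (Op N), ∀ h : G, val w h = F' ((h : (Op N)ˣ) : Op N))
    {κ : Type*} {l : Filter κ} {g : κ → G} {g' : G}
    (hg : Tendsto (fun n => ((g n : (Op N)ˣ) : Op N)) l (𝓝 ((g' : (Op N)ˣ) : Op N))) :
    Tendsto (fun n => ρ (g n)) l (𝓝 (ρ g')) := by
  refine coef_tendsto (val := fun x : G => (LinearMap.proj x) ∘ₗ val) (fun w hw => hinj ?_) ?_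
  · ext h
    have := hw h
    simpa using this
  · intro w x
    obtain ⟨F', h1, h2⟩ := hp w
    have h3 : ∀ g : G, ((LinearMap.proj x) ∘ₗ val) (ρ g w) =
        F' (((x : (Op N)ˣ) : Op N) * ((g : (Op N)ˣ) : Op N)) := by
      intro g
      change val (ρ g w) x = _
      rw [hr, h2]
      rfl
    simp only [h3]
    exact ((PolyFun.continuous h1).tendsto _).comp (tendsto_const_nhds.mul hg)

/-- transformation rule of the functions under left translation -/
lemma val_left {F : Op N → ℝ} (hr : ∀ g w h, val (ρ g w) h = val w (h * g))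
    (h0 : ∀ h : G, val w0 h = F ((h : (Op N)ˣ) : Op N))
    (hspan : ∀ U : Submodule ℝ (Fin d → ℝ), (∀ g, ρ g w0 ∈ U) → U = ⊤) {y : G} {χ : ℝ}
    (hy : ∀ T : Op N, F (((y : (Op N)ˣ) : Op N) * T) = χ * F T) (w : Fin d → ℝ) (h : G) :
    val w (y * h) = χ * val w h := by
  let U : Submodule ℝ (Fin d → ℝ) :=
    { carrier := {w | ∀ h, val w (y * h) = χ * val w h}
      add_mem' := fun {a b} ha hb h => by
        have ha' : val a (y * h) = χ * val a h := ha h
        have hb' : val b (y * h) = χ * val b h := hb h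
        rw [map_add, Pi.add_apply, Pi.add_apply, ha', hb', mul_add]
      zero_mem' := fun h => by simp
      smul_mem' := fun c a ha h => by
        have ha' : val a (y * h) = χ * val a h := ha h
        rw [map_smul, Pi.smul_apply, Pi.smul_apply, ha', smul_eq_mul, smul_eq_mul]
        ring }
  have hU : U = ⊤ := by
    refine hspan U fun g h => ?_
    rw [hr, hr, h0, h0, ← hy]
    simp only [Subgroup.coe_mul, Units.val_mul, mul_assoc]
  have : w ∈ U := by rw [hU]; trivial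
  exact this h

end Rep

/-! ### conjugation by torus elements -/

section Torus

variable {ι : Type} [Fintype ι] {P : ι → Op N}

lemma smul_mul' (a : ℝ) (S T : Op N) : (a • S) * T = a • (S * T) := rfl

lemma mul_smul' (a : ℝ) (S T : Op N) : S * (a • T) = a • (S * T) :=
  ContinuousLinearMap.ext fun v => map_smul S a (T v)

/-- the torus element -/
noncomputable def tor (P : ι → Op N) (m : ι → ℝ) : Op N := ∑ i, Real.exp (m i) • P i

lemma tor_P (hP : IsGrading P) (m : ι → ℝ) (i : ι) : tor P m * P i = Real.exp (m i) • P i := by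
  rw [tor, Finset.sum_mul, Finset.sum_eq_single i]
  · rw [smul_mul', hP.idem]
  · intro k _ hk; rw [smul_mul', hP.orth k i hk, smul_zero]
  · intro h; exact absurd (Finset.mem_univ i) h

lemma P_tor (hP : IsGrading P) (m : ι → ℝ) (i : ι) : P i * tor P m = Real.exp (m i) • P i := by
  rw [tor, Finset.mul_sum, Finset.sum_eq_single i]
  · rw [mul_smul', hP.idem]
  · intro k _ hk; rw [mul_smul', hP.orth i k (Ne.symm hk), smul_zero]
  · intro h; exact absurd (Finset.mem_univ i) h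

lemma tor_diag (hP : IsGrading P) (m : ι → ℝ) : Diag P (tor P m) := fun i => by
  rw [tor_P hP, P_tor hP]

/-- the conjugate of `T` by the inverse of a torus element -/
noncomputable def cj (P : ι → Op N) (m : ι → ℝ) (T : Op N) : Op N :=
  ∑ i, ∑ j, Real.exp (m j - m i) • (P i * T * P j)

lemma tor_cj (hP : IsGrading P) (m : ι → ℝ) (T : Op N) : tor P m * cj P m T = T * tor P m := by
  have h1 : ∀ i j, tor P m * (Real.exp (m j - m i) • (P i * T * P j)) =
      Real.exp (m j) • (P i * T * P j) := by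
    intro i j
    rw [mul_smul', mul_assoc (P i), ← mul_assoc (tor P m), tor_P hP, smul_mul', smul_smul,
      ← Real.exp_add, sub_add_cancel]
  rw [cj, Finset.mul_sum]
  simp only [Finset.mul_sum, h1]
  rw [Finset.sum_comm]
  conv_rhs => rw [tor, Finset.mul_sum]
  refine Finset.sum_congr rfl fun j _ => ?_
  rw [mul_smul', ← Finset.smul_sum]
  congr 1
  conv_rhs => rw [hP.sum_mul (T * P j)]
  exact Finset.sum_congr rfl fun i _ => by rw [mul_assoc]

lemma P_cj_P (hP : IsGrading P) (m : ι → ℝ) (T : Op N) (i j : ι) :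
    P i * cj P m T * P j = Real.exp (m j - m i) • (P i * T * P j) := by
  rw [cj, Finset.mul_sum, Finset.sum_mul, Finset.sum_eq_single i]
  · rw [Finset.mul_sum, Finset.sum_mul, Finset.sum_eq_single j]
    · rw [mul_smul', smul_mul']
      congr 1
      rw [← mul_assoc, ← mul_assoc, hP.idem, mul_assoc (P i * T), hP.idem]
    · intro k _ hk
      rw [mul_smul', smul_mul', mul_assoc (P i), mul_assoc (P i * T), hP.orth k j hk, mul_zero,
        mul_zero, smul_zero]
    · intro h; exact absurd (Finset.mem_univ j) h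
  · intro k _ hk
    rw [Finset.mul_sum, Finset.sum_mul]
    refine Finset.sum_eq_zero fun l _ => ?_
    rw [mul_smul', smul_mul', ← mul_assoc, ← mul_assoc, hP.orth i k (Ne.symm hk), zero_mul,
      zero_mul, zero_mul, smul_zero]
  · intro h; exact absurd (Finset.mem_univ i) h

lemma cj_norm_le {r : ι → ι → Prop} {m : ι → ℝ} (hm : ∀ i j, r i j → m i ≤ m j) {x : Op N}
    (hx : Unip P (fun i j => r j i) x) : ‖cj P m x‖ ≤ ∑ i, ∑ j, ‖P i * x * P j‖ := by
  unfold cj
  refine (norm_sum_le _ _).trans (Finset.sum_le_sum fun i _ => ?_)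
  refine (norm_sum_le _ _).trans (Finset.sum_le_sum fun j _ => ?_)
  rcases eq_or_ne i j with rfl | hij
  · rw [sub_self, Real.exp_zero, one_smul]
  by_cases hr : r j i
  · rw [norm_smul, Real.norm_eq_abs, abs_of_pos (Real.exp_pos _)]
    have : Real.exp (m j - m i) ≤ 1 := Real.exp_le_one_iff.2 (by linarith [hm j i hr])
    exact mul_le_of_le_one_left (norm_nonneg _) this
  · rw [hx.2 i j hij hr, smul_zero]

lemma cj_tendsto (hP : IsGrading P) {r : ι → ι → Prop} {κ : Type*} {l : Filter κ}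
    {m : κ → ι → ℝ} {x : Op N} (hx : Unip P (fun i j => r j i) x)
    (h : ∀ i j, r j i → Tendsto (fun n => Real.exp (m n j - m n i)) l (𝓝 0)) :
    Tendsto (fun n => cj P (m n) x) l (𝓝 1) := by
  have h1 : (1 : Op N) = ∑ i, ∑ j, P i * 1 * P j := by
    conv_lhs => rw [hP.sum_mul 1]
    refine Finset.sum_congr rfl fun i _ => ?_
    rw [← hP.mul_sum]
  rw [h1]
  unfold cj
  refine tendsto_finsetSum _ fun i _ => tendsto_finsetSum _ fun j _ => ?_
  rcases eq_or_ne i j with rfl | hij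
  · simp only [sub_self, Real.exp_zero, one_smul]
    rw [hx.1, mul_one, hP.idem]
    exact tendsto_const_nhds
  rw [mul_one, hP.orth i j hij]
  by_cases hr : r j i
  · have h3 := (h i j hr).smul_const (P i * x * P j)
    convert h3 using 2
    exact (zero_smul ℝ (P i * x * P j)).symm
  · rw [hx.2 i j hij hr]
    simp only [smul_zero]
    exact tendsto_const_nhds

end Torus

/-! ### compactness of the orthogonal elements -/

section Compact

lemma norm_le_one {T : Op N} (h : star T * T = 1) : ‖T‖ ≤ 1 := by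
  refine ContinuousLinearMap.opNorm_le_bound T zero_le_one fun v => ?_
  have h1 := ContinuousLinearMap.apply_norm_sq_eq_inner_adjoint_left T v
  have h2 : (ContinuousLinearMap.adjoint T * T) v = v := by
    have := congrArg (fun A : Op N => A v) h
    exact this
  have h3 : ‖T v‖ ^ 2 = ‖v‖ ^ 2 := by
    rw [h1]
    have h4 : (ContinuousLinearMap.adjoint T ∘L T) v = v := h2
    rw [h4]
    simp
  rw [one_mul]
  exact le_of_eq ((sq_eq_sq₀ (norm_nonneg _) (norm_nonneg _)).1 h3)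

lemma mem_of_tendsto {G : Subgroup (Op N)ˣ} (hcl : ∀ g : (Op N)ˣ, (∀ F ∈ PolyFun (Op N),
    (∀ h ∈ G, F (h : Op N) = 0) → F (g : Op N) = 0) → g ∈ G) {g : ℕ → (Op N)ˣ}
    (hg : ∀ n, g n ∈ G) {T : Op N} (hT : IsUnit T)
    (hlim : Tendsto (fun n => (g n : Op N)) atTop (𝓝 T)) : ∃ u ∈ G, (u : Op N) = T := by
  obtain ⟨u, hu⟩ := hT
  refine ⟨u, hcl u fun F hF hFG => ?_, hu⟩
  have h1 := ((PolyFun.continuous hF).tendsto T).comp hlim
  have h2 : (F ∘ fun n => (g n : Op N)) = fun _ => (0 : ℝ) := by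
    ext n
    exact hFG _ (hg n)
  rw [h2] at h1
  rw [hu]
  exact (tendsto_nhds_unique h1 tendsto_const_nhds)

lemma orth_subseq {G : Subgroup (Op N)ˣ} (hcl : ∀ g : (Op N)ˣ, (∀ F ∈ PolyFun (Op N),
    (∀ h ∈ G, F (h : Op N) = 0) → F (g : Op N) = 0) → g ∈ G) {k : ℕ → (Op N)ˣ}
    (hk : ∀ n, k n ∈ G) (ho : ∀ n, star (k n : Op N) * (k n : Op N) = 1) :
    ∃ u ∈ G, star (u : Op N) * (u : Op N) = 1 ∧ ∃ φ : ℕ → ℕ, StrictMono φ ∧
      Tendsto (fun n => (k (φ n) : Op N)) atTop (𝓝 (u : Op N)) := by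
  obtain ⟨T, -, φ, hφ, hT⟩ := tendsto_subseq_of_bounded
    (Metric.isBounded_closedBall (x := (0 : Op N)) (r := 1))
    (x := fun n => (k n : Op N)) fun n => by
      rw [mem_closedBall_zero_iff]
      exact norm_le_one (ho n)
  have h1 : star T * T = 1 := by
    have h2 : Tendsto (fun n => star (k (φ n) : Op N) * (k (φ n) : Op N)) atTop
        (𝓝 (star T * T)) := by
      refine Tendsto.mul ?_ hT
      exact (continuous_star.tendsto T).comp hT
    have h3 : (fun n => star (k (φ n) : Op N) * (k (φ n) : Op N)) = fun _ => 1 := by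
      ext1 n
      exact ho _
    rw [h3] at h2
    exact (tendsto_nhds_unique h2 tendsto_const_nhds)
  have h4 : dt T ≠ 0 := by
    intro h0
    have := congrArg dt h1
    rw [dt_mul, h0, mul_zero, dt_one] at this
    exact zero_ne_one this
  obtain ⟨u, hu, huT⟩ := mem_of_tendsto hcl (fun n => hk (φ n)) (isUnit_of_dt h4) hT
  exact ⟨u, hu, by rw [huT, h1], φ, hφ, by rw [huT]; exact hT⟩

end Compact

end Lox

end Pool.Agent.Lib.MP_d9b062_al
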