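import Pool.Agent.Lib.MP_d9b062_al.Interface

/-!
# Determinants of the leading compressions
-/

namespace Pool.Agent.Lib.MP_d9b062_al

namespace Lox

open NormedSpace Filter
open scoped Topology Matrix

variable {N : ℕ}

/-- determinant -/
noncomputable def dt (T : Op N) : ℝ := LinearMap.det (T : V N →ₗ[ℝ] V N)

lemma dt_mul (S T : Op N) : dt (S * T) = dt S * dt T := by
  unfold dt
  rw [← map_mul]
  rfl

lemma dt_one : dt (1 : Op N) = 1 := by
  unfold dt
  exact map_one _

lemma isUnit_of_dt {T : Op N} (h : dt T ≠ 0) : IsUnit T := by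
  have h1 : IsUnit (T : V N →ₗ[ℝ] V N) := by
    rw [LinearMap.isUnit_iff_isUnit_det]
    exact isUnit_iff_ne_zero.2 h
  have h2 := h1.map (Module.End.toContinuousLinearMap (V N)).toRingEquiv.toRingHom
  have h3 : (Module.End.toContinuousLinearMap (V N)).toRingEquiv.toRingHom
      (T : V N →ₗ[ℝ] V N) = T := by
    ext v
    rfl
  rwa [h3] at h2

lemma dt_unip {ι : Type*} [Fintype ι] {P : ι → Op N} (hP : IsGrading P) {s : ι → ι → Prop}
    (hs : ∀ i j k, s i j → s j k → s i k) (hi : ∀ i, ¬ s i i) {T : Op N} (hT : Unip P s T) :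
    dt T = 1 := by
  have h0 := (hT.supp hP hi).pow_zero_of_card hP hs hi
  have hnil : IsNilpotent ((1 - T : Op N) : V N →ₗ[ℝ] V N) := by
    refine ⟨Fintype.card ι + 1, ?_⟩
    have := congrArg (fun A : Op N => (A : V N →ₗ[ℝ] V N)) h0
    simpa using this
  have h1 := hnil.charpoly_eq_X_pow_finrank
  have h2 := congrArg (Polynomial.eval 1) h1
  rw [LinearMap.eval_charpoly] at h2
  simp only [Polynomial.eval_pow, Polynomial.eval_X, one_pow] at h2
  unfold dt
  rw [← h2]
  congr 1
  ext v
  simp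

lemma dt_polyFun : (fun T : Op N => dt T) ∈ PolyFun (Op N) := by
  let b := (EuclideanSpace.basisFun (Fin N) ℝ).toBasis
  have h : (fun T : Op N => dt T) = fun T : Op N => ∑ σ : Equiv.Perm (Fin N),
      ((Equiv.Perm.sign σ : ℤ) : ℝ) * ∏ i, (LinearMap.toMatrix b b (T : V N →ₗ[ℝ] V N)) (σ i) i := by
    ext T
    rw [dt, ← LinearMap.det_toMatrix b, Matrix.det_apply']
  rw [h]
  refine PolyFun.sum _ fun σ _ => PolyFun.mul (PolyFun.const _) (PolyFun.prod _ fun i _ => ?_)
  let φ : Op N →ₗ[ℝ] ℝ := (Matrix.entryLinearMap ℝ ℝ (σ i) i) ∘ₗ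
    (LinearMap.toMatrix b b).toLinearMap ∘ₗ (ContinuousLinearMap.coeLM ℝ)
  exact PolyFun.linear φ

lemma det_one_add_self_mul_conjTranspose {n : Type*} [Fintype n] [DecidableEq n]
    (M : Matrix n n ℝ) : 1 ≤ (1 + M * Mᴴ).det ∧ ((1 + M * Mᴴ).det = 1 → M = 0) := by
  have hps := Matrix.posSemidef_self_mul_conjTranspose M
  have hB := hps.isHermitian
  have h1 := congrArg (Polynomial.eval (-1)) hB.charpoly_eq
  rw [Matrix.eval_charpoly, Polynomial.eval_prod] at h1
  have h2 : (Matrix.scalar n (-1 : ℝ) - M * Mᴴ) = -(1 + M * Mᴴ) := by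
    rw [map_neg, map_one]; abel
  rw [h2, Matrix.det_neg] at h1
  have h3 : ∏ j, Polynomial.eval (-1 : ℝ) (Polynomial.X - Polynomial.C (hB.eigenvalues j : ℝ)) =
      (-1) ^ Fintype.card n * ∏ j, (1 + hB.eigenvalues j) := by
    have : ∀ j, Polynomial.eval (-1 : ℝ) (Polynomial.X - Polynomial.C (hB.eigenvalues j : ℝ)) =
        (-1) * (1 + hB.eigenvalues j) := by
      intro j; simp; ring
    rw [Finset.prod_congr rfl fun j _ => this j, Finset.prod_mul_distrib]
    simp
  have h4 : (1 + M * Mᴴ).det = ∏ j, (1 + hB.eigenvalues j) := by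
    have h5 : ((-1 : ℝ)) ^ Fintype.card n ≠ 0 := pow_ne_zero _ (by norm_num)
    refine mul_left_cancel₀ h5 ?_
    rw [← h3]
    exact h1
  have hnn : ∀ j, 0 ≤ hB.eigenvalues j := hps.eigenvalues_nonneg
  refine ⟨?_, fun h => ?_⟩
  · rw [h4]
    exact Finset.one_le_prod fun k _ => by linarith [hnn k]
  rw [h4] at h
  have h6 : hB.eigenvalues = 0 := by
    funext j
    by_contra hj
    have hpos : 0 < hB.eigenvalues j := lt_of_le_of_ne (hnn j) (Ne.symm hj)
    have : 1 < ∏ j, (1 + hB.eigenvalues j) := by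
      rw [← Finset.prod_erase_mul _ _ (Finset.mem_univ j)]
      have h7 : 1 ≤ ∏ k ∈ Finset.univ.erase j, (1 + hB.eigenvalues k) :=
        Finset.one_le_prod fun k _ => by linarith [hnn k]
      nlinarith
    linarith
  rw [hB.eigenvalues_eq_zero_iff] at h6
  exact Matrix.self_mul_conjTranspose_eq_zero.1 h6

lemma dt_one_add (S : Op N) : 1 ≤ dt (1 + S * star S) ∧ (dt (1 + S * star S) = 1 → S = 0) := by
  let b := EuclideanSpace.basisFun (Fin N) ℝ
  let M := LinearMap.toMatrixOrthonormal b (S : V N →ₗ[ℝ] V N)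
  have h1 : LinearMap.toMatrixOrthonormal b ((1 + S * star S : Op N) : V N →ₗ[ℝ] V N) =
      1 + M * Mᴴ := by
    have e : ((1 + S * star S : Op N) : V N →ₗ[ℝ] V N) =
        1 + (S : V N →ₗ[ℝ] V N) * star (S : V N →ₗ[ℝ] V N) := by
      ext v
      rfl
    rw [e, map_add, map_one, map_mul, map_star]
    rfl
  have h2 : dt (1 + S * star S) = (1 + M * Mᴴ).det := by
    rw [← h1, dt, ← LinearMap.det_toMatrix b.toBasis]
    rfl
  have h3 := det_one_add_self_mul_conjTranspose M
  rw [h2]
  refine ⟨h3.1, fun h => ?_⟩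
  have h4 : (S : V N →ₗ[ℝ] V N) = 0 := by
    have := (LinearMap.toMatrixOrthonormal b).injective ((h3.2 h).trans (map_zero _).symm)
    exact this
  refine ContinuousLinearMap.ext fun v => ?_
  have := congrArg (fun A : V N →ₗ[ℝ] V N => A v) h4
  simpa using this

lemma st_add (S T : Op N) : star (S + T) = star S + star T := star_add S T

lemma st_zero : star (0 : Op N) = 0 := star_zero (Op N)

lemma st_sum {κ : Type*} (s : Finset κ) (S : κ → Op N) :
    star (∑ i ∈ s, S i) = ∑ i ∈ s, star (S i) := by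
  classical
  induction s using Finset.induction_on with
  | empty => simpa using st_zero
  | insert a s ha ih => rw [Finset.sum_insert ha, Finset.sum_insert ha, st_add, ih]

lemma star_unip {ι : Type*} {P : ι → Op N} (hs : ∀ i, star (P i) = P i) {s : ι → ι → Prop}
    {T : Op N} (hT : Unip P s T) : Unip P (fun i j => s j i) (star T) := by
  constructor
  · intro i
    have := congrArg star (hT.1 i)
    simpa [star_mul, hs, mul_assoc] using this
  · intro i j hij hn
    have := congrArg star (hT.2 j i (Ne.symm hij) hn)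
    rw [st_zero] at this
    simpa [star_mul, hs, mul_assoc] using this

section DD

variable {ι : Type*} [Fintype ι] [LinearOrder ι] {P : ι → Op N}

lemma Mi_mul_left (hP : IsGrading P) {y T : Op N} {i : ι} (h : Qge P i * y * Qlt P i = 0) :
    Mi P i (y * T) = Mi P i y * Mi P i T := by
  have h1 : Qge P i * y = Qge P i * y * Qge P i := by
    calc Qge P i * y = Qge P i * y * (Qge P i + Qlt P i) := by rw [hP.Q_add, mul_one]
      _ = _ := by rw [mul_add, h, add_zero]
  have e1 : Qge P i * (y * T) * Qge P i = (Qge P i * y * Qge P i) * (Qge P i * T * Qge P i) := by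
    calc Qge P i * (y * T) * Qge P i = (Qge P i * y) * T * Qge P i := by simp only [mul_assoc]
      _ = (Qge P i * y * Qge P i) * T * Qge P i := by rw [← h1]
      _ = (Qge P i * y * (Qge P i * Qge P i)) * T * Qge P i := by rw [hP.Qge_idem]
      _ = _ := by simp only [mul_assoc]
  have e2 : Qge P i * y * Qge P i * Qlt P i = 0 := by rw [mul_assoc, hP.Qge_Qlt, mul_zero]
  have e3 : Qlt P i * (Qge P i * T * Qge P i) = 0 := by
    rw [← mul_assoc, ← mul_assoc, hP.Qlt_Qge, zero_mul, zero_mul]
  simp only [Mi]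
  rw [e1, add_mul, mul_add, mul_add, e2, e3, hP.Qlt_idem, add_zero, zero_add]

lemma Mi_mul_right (hP : IsGrading P) {x T : Op N} {i : ι} (h : Qlt P i * x * Qge P i = 0) :
    Mi P i (T * x) = Mi P i T * Mi P i x := by
  have h1 : x * Qge P i = Qge P i * x * Qge P i := by
    calc x * Qge P i = (Qge P i + Qlt P i) * x * Qge P i := by rw [hP.Q_add, one_mul]
      _ = _ := by rw [add_mul, add_mul, h, add_zero]
  have e1 : Qge P i * (T * x) * Qge P i = (Qge P i * T * Qge P i) * (Qge P i * x * Qge P i) := by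
    calc Qge P i * (T * x) * Qge P i = (Qge P i * T) * (x * Qge P i) := by simp only [mul_assoc]
      _ = (Qge P i * T) * (Qge P i * x * Qge P i) := by rw [← h1]
      _ = (Qge P i * T) * ((Qge P i * Qge P i) * x * Qge P i) := by rw [hP.Qge_idem]
      _ = _ := by simp only [mul_assoc]
  have e2 : Qge P i * T * Qge P i * Qlt P i = 0 := by rw [mul_assoc, hP.Qge_Qlt, mul_zero]
  have e3 : Qlt P i * (Qge P i * x * Qge P i) = 0 := by
    rw [← mul_assoc, ← mul_assoc, hP.Qlt_Qge, zero_mul, zero_mul]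
  simp only [Mi]
  rw [e1, add_mul, mul_add, mul_add, e2, e3, hP.Qlt_idem, add_zero, zero_add]

/-- the product of the leading minors -/
noncomputable def D (P : ι → Op N) (T : Op N) : ℝ := ∏ i, dt (Mi P i T)

lemma D_left (hP : IsGrading P) {y T : Op N} (h : ∀ i, Qge P i * y * Qlt P i = 0) :
    D P (y * T) = D P y * D P T := by
  rw [D, D, D, ← Finset.prod_mul_distrib]
  exact Finset.prod_congr rfl fun i _ => by rw [Mi_mul_left hP (h i), dt_mul]

lemma D_right (hP : IsGrading P) {x T : Op N} (h : ∀ i, Qlt P i * x * Qge P i = 0) :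
    D P (T * x) = D P T * D P x := by
  rw [D, D, D, ← Finset.prod_mul_distrib]
  exact Finset.prod_congr rfl fun i _ => by rw [Mi_mul_right hP (h i), dt_mul]

lemma D_one (hP : IsGrading P) : D P 1 = 1 := by
  refine Finset.prod_eq_one fun i _ => ?_
  rw [Mi, mul_one, hP.Qge_idem, hP.Q_add, dt_one]

lemma D_unip (hP : IsGrading P) {s : ι → ι → Prop}
    (hs : ∀ i j k, s i j → s j k → s i k) (hi : ∀ i, ¬ s i i) {T : Op N} (hT : Unip P s T) :
    D P T = 1 :=
  Finset.prod_eq_one fun i _ => dt_unip hP hs hi (hT.Mi_unip hP i)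

lemma reg_of_D {T : Op N} (h : D P T ≠ 0) : Reg P T := fun i =>
  isUnit_of_dt (Finset.prod_ne_zero_iff.1 h i (Finset.mem_univ i))

lemma D_polyFun : (fun T : Op N => D P T) ∈ PolyFun (Op N) := by
  unfold D
  refine PolyFun.prod _ fun i _ => ?_
  have h : IsPolyMap (fun T : Op N => Mi P i T) :=
    ((IsPolyMap.const (Qge P i)).mul IsPolyMap.id).mul (IsPolyMap.const (Qge P i)) |>.add
      (IsPolyMap.const (Qlt P i))
  exact PolyFun.comp dt_polyFun h

lemma star_Qge (hs : ∀ i, star (P i) = P i) (i : ι) : star (Qge P i) = Qge P i := by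
  rw [Qge, st_sum]
  exact Finset.sum_congr rfl fun j _ => hs j

lemma star_Qlt (hs : ∀ i, star (P i) = P i) (i : ι) : star (Qlt P i) = Qlt P i := by
  rw [Qlt, st_sum]
  exact Finset.sum_congr rfl fun j _ => hs j

/-- `D (x x*) = 1` only for `x = 1` -/
lemma eq_one_of_D (hP : IsGrading P) (hs : ∀ i, star (P i) = P i) {x : Op N}
    (hx : Unip P (fun i j => j < i) x) (h : D P (x * star x) = 1) : x = 1 := by
  have key : ∀ i, ∃ S : Op N, dt (Mi P i (x * star x)) = dt (1 + S * star S) ∧
      (S = 0 → Qge P i * x * Qlt P i = 0) := by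
    intro i
    have hu := hx.Mi_unip hP i
    have hu1 : dt (Mi P i x) = 1 := dt_unip hP gt_trans' (fun i => lt_irrefl i) hu
    have hu2 : dt (star (Mi P i x)) = 1 :=
      dt_unip hP lt_trans' (fun i => lt_irrefl i) (star_unip hs hu)
    obtain ⟨u, hu3⟩ := hu.isUnit hP gt_trans' (fun i => lt_irrefl i)
    refine ⟨((u⁻¹ : (Op N)ˣ) : Op N) * (Qge P i * x * Qlt P i), ?_, ?_⟩
    · have e : Mi P i (x * star x) = (u : Op N) * (1 + ((u⁻¹ : (Op N)ˣ) : Op N) *
          (Qge P i * x * Qlt P i) * star (((u⁻¹ : (Op N)ˣ) : Op N) * (Qge P i * x * Qlt P i))) *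
          star (u : Op N) := by
        have e1 : (u : Op N) * (1 + ((u⁻¹ : (Op N)ˣ) : Op N) *
          (Qge P i * x * Qlt P i) * star (((u⁻¹ : (Op N)ˣ) : Op N) * (Qge P i * x * Qlt P i))) *
          star (u : Op N) = (u : Op N) * star (u : Op N) + (Qge P i * x * Qlt P i) *
            star (Qge P i * x * Qlt P i) := by
          have e2 : star ((u⁻¹ : (Op N)ˣ) : Op N) * star (u : Op N) = 1 := by
            rw [← star_mul, Units.mul_inv, star_one]
          calc (u : Op N) * (1 + ((u⁻¹ : (Op N)ˣ) : Op N) *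
              (Qge P i * x * Qlt P i) * star (((u⁻¹ : (Op N)ˣ) : Op N) *
                (Qge P i * x * Qlt P i))) * star (u : Op N)
              = (u : Op N) * star (u : Op N) + ((u : Op N) * ((u⁻¹ : (Op N)ˣ) : Op N)) *
                (Qge P i * x * Qlt P i) * star (Qge P i * x * Qlt P i) *
                (star ((u⁻¹ : (Op N)ˣ) : Op N) * star (u : Op N)) := by
                rw [star_mul]; noncomm_ring
            _ = _ := by rw [e2, Units.mul_inv, one_mul, mul_one]
        rw [e1, hu3]
        simp only [Mi, st_add, star_mul, star_Qge hs, star_Qlt hs]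
        have a1 := hP.Qge_idem i
        have a2 := hP.Qlt_idem i
        have a3 := hP.Qge_Qlt i
        have a4 := hP.Qlt_Qge i
        have a5 := hP.Q_add i
        have b1 : Qge P i * x * Qge P i * (Qge P i * (star x * Qge P i)) =
            Qge P i * x * Qge P i * (star x * Qge P i) := by
          rw [← mul_assoc (Qge P i * x * Qge P i), mul_assoc (Qge P i * x), a1]
        have b2 : Qge P i * x * Qlt P i * (Qlt P i * (star x * Qge P i)) =
            Qge P i * x * Qlt P i * (star x * Qge P i) := by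
          rw [← mul_assoc (Qge P i * x * Qlt P i), mul_assoc (Qge P i * x), a2]
        have b3 : Qge P i * x * Qge P i * Qlt P i = 0 := by rw [mul_assoc, a3, mul_zero]
        have b4 : Qlt P i * (Qge P i * (star x * Qge P i)) = 0 := by
          rw [← mul_assoc, a4, zero_mul]
        rw [add_mul, mul_add, mul_add, b1, b2, b3, b4, a2, add_zero, zero_add]
        have : Qge P i * (x * star x) * Qge P i = Qge P i * x * (Qge P i + Qlt P i) *
            (star x * Qge P i) := by
          rw [a5, mul_one]; simp only [mul_assoc]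
        rw [this, mul_add, add_mul]
        abel
      rw [e, dt_mul, dt_mul, hu3, hu2, hu1, one_mul, mul_one]
    · intro h0
      have := congrArg ((u : Op N) * ·) h0
      simpa [← mul_assoc] using this
  choose S hS1 hS2 using key
  have h1 : ∀ i, dt (1 + S i * star (S i)) = 1 := by
    intro i
    by_contra hne
    have hgt : 1 < dt (1 + S i * star (S i)) :=
      lt_of_le_of_ne (dt_one_add (S i)).1 (Ne.symm hne)
    have : 1 < D P (x * star x) := by
      rw [D, ← Finset.prod_erase_mul _ _ (Finset.mem_univ i), hS1 i]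
      have h7 : 1 ≤ ∏ k ∈ Finset.univ.erase i, dt (Mi P k (x * star x)) :=
        Finset.one_le_prod fun k _ => by rw [hS1 k]; exact (dt_one_add (S k)).1
      nlinarith
    linarith
  refine hP.ext fun i j => ?_
  rcases eq_or_ne i j with rfl | hij
  · rw [hx.1, mul_one, hP.idem]
  rw [mul_one, hP.orth i j hij]
  by_cases hlt : j < i
  · have h2 := hS2 i ((dt_one_add (S i)).2 (h1 i))
    have h3 : P i * Qge P i = P i := by rw [hP.P_Qge, if_pos le_rfl]
    have h4 : Qlt P i * P j = P j := by rw [hP.Qlt_P, if_neg (not_le.2 hlt)]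
    calc P i * x * P j = P i * Qge P i * x * (Qlt P i * P j) := by rw [h3, h4]
      _ = P i * (Qge P i * x * Qlt P i) * P j := by simp only [mul_assoc]
      _ = 0 := by rw [h2, mul_zero, zero_mul]
  · exact hx.2 i j hij hlt

end DD

end Lox

end Pool.Agent.Lib.MP_d9b062_al
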