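import Pool.Agent.Lib.MP_d9b062_al_h20.Lox

/-!
# The first loxodromic sequence: main argument
-/

namespace Pool.Agent.Lib.MP_d9b062_al

namespace Lox

open NormedSpace Filter
open scoped Topology

variable {N : ℕ}

/-- the representation spanned by the translates of `F` -/
structure RepD (G : Subgroup (Op N)ˣ) (F : Op N → ℝ) where
  d : ℕ
  ρ : G →* ((Fin d → ℝ) →L[ℝ] (Fin d → ℝ))
  val : (Fin d → ℝ) →ₗ[ℝ] (G → ℝ)
  w0 : Fin d → ℝ
  inj : Function.Injective val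
  hr : ∀ g w h, val (ρ g w) h = val w (h * g)
  h0 : ∀ h : G, val w0 h = F ((h : (Op N)ˣ) : Op N)
  hspan : ∀ U : Submodule ℝ (Fin d → ℝ), (∀ g, ρ g w0 ∈ U) → U = ⊤
  hp : ∀ w, ∃ F' ∈ PolyFun (Op N), ∀ h : G, val w h = F' ((h : (Op N)ˣ) : Op N)

lemma nonempty_repD (G : Subgroup (Op N)ˣ) {F : Op N → ℝ} (hF : F ∈ PolyFun (Op N)) :
    Nonempty (RepD G F) := by
  obtain ⟨d, ρ, val, w0, h1, h2, h3, h4, h5⟩ := exists_rep G hF
  exact ⟨⟨d, ρ, val, w0, h1, h2, h3, h4, h5⟩⟩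

variable {G : Subgroup (Op N)ˣ} {ι : Type} [Fintype ι] [LinearOrder ι]

/-- the upper unipotent elements -/
def NP (c : Cell G ι) : Set G := {x | Unip c.P (fun i j => c.r j i) ((x : (Op N)ˣ) : Op N)}

lemma r_irrefl (c : Cell G ι) (i : ι) : ¬ c.r i i := fun h => lt_irrefl _ (c.r_lt i i h)

lemma lower_Q (c : Cell G ι) {y : Op N} (hy : Unip c.P c.r y) (i : ι) :
    Qge c.P i * y * Qlt c.P i = 0 :=
  (hy.mono c.r_lt).Qge_mul c.grading i

lemma upper_Q (c : Cell G ι) {x : Op N} (hx : Unip c.P (fun i j => c.r j i) x) (i : ι) :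
    Qlt c.P i * x * Qge c.P i = 0 :=
  (hx.mono (s' := fun i j => j < i) fun i j h => c.r_lt j i h).Qlt_mul c.grading i

lemma diag_Q (c : Cell G ι) {l : Op N} (hl : Diag c.P l) (i : ι) :
    Qge c.P i * l * Qlt c.P i = 0 ∧ Qlt c.P i * l * Qge c.P i = 0 := by
  rw [c.grading.diag_Qge hl, c.grading.diag_Qlt hl, mul_assoc, mul_assoc, c.grading.Qge_Qlt,
    c.grading.Qlt_Qge, mul_zero]
  exact ⟨rfl, rfl⟩

lemma D_lower (c : Cell G ι) {y : Op N} (hy : Unip c.P c.r y) : D c.P y = 1 :=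
  D_unip c.grading c.r_trans (r_irrefl c) hy

lemma D_upper (c : Cell G ι) {x : Op N} (hx : Unip c.P (fun i j => c.r j i) x) : D c.P x = 1 :=
  D_unip c.grading (fun i j k h h' => c.r_trans k j i h' h) (r_irrefl c) hx

lemma D_diag_ne (c : Cell G ι) {l : G} (hl : Diag c.P ((l : (Op N)ˣ) : Op N)) :
    D c.P ((l : (Op N)ˣ) : Op N) ≠ 0 := by
  intro h
  have h1 := D_left (T := ((l⁻¹ : G) : (Op N)ˣ)) c.grading fun i => (diag_Q c hl i).1
  rw [h, zero_mul] at h1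
  have h2 : ((l : (Op N)ˣ) : Op N) * (((l⁻¹ : G) : (Op N)ˣ) : Op N) = 1 := by
    rw [← Units.val_mul, ← Subgroup.coe_mul, mul_inv_cancel]
    rfl
  rw [h2, D_one c.grading] at h1
  exact one_ne_zero h1

variable {c : Cell G ι} (R : RepD G (D c.P))

include R

lemma RepD.val_y (w : Fin R.d → ℝ) {y : G} (hy : Unip c.P c.r ((y : (Op N)ˣ) : Op N)) (h : G) :
    R.val w (y * h) = R.val w h := by
  have := val_left (F := D c.P) R.hr R.h0 R.hspan (y := y) (χ := 1) (fun T => by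
    rw [D_left c.grading (lower_Q c hy), D_lower c hy]) w h
  rwa [one_mul] at this

lemma RepD.val_l (w : Fin R.d → ℝ) {l : G} (hl : Diag c.P ((l : (Op N)ˣ) : Op N)) (h : G) :
    R.val w (l * h) = D c.P ((l : (Op N)ˣ) : Op N) * R.val w h :=
  val_left (F := D c.P) R.hr R.h0 R.hspan (fun T => by
    rw [D_left c.grading (fun i => (diag_Q c hl i).1)]) w h

/-- the functions are determined by their values at the upper unipotent elements -/
lemma RepD.sep (w : Fin R.d → ℝ) (hw : ∀ x : NP c, R.val w x = 0) : w = 0 := by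
  obtain ⟨F', h1, h2⟩ := R.hp w
  have h3 : ∀ g ∈ G, F' (g : Op N) * D c.P (g : Op N) = 0 := by
    intro g hg
    by_cases hD : D c.P (g : Op N) = 0
    · rw [hD, mul_zero]
    obtain ⟨y, hy, l, hl, x, hx, hyu, hld, hxu, hgx⟩ := c.fac g hg (reg_of_D hD)
    have e : (⟨g, hg⟩ : G) = ⟨y, hy⟩ * (⟨l, hl⟩ * ⟨x, hx⟩) := by
      refine Subtype.ext (Units.ext ?_)
      change (g : Op N) = (y : Op N) * ((l : Op N) * (x : Op N))
      rw [hgx, mul_assoc]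
    have h4 : F' (g : Op N) = R.val w ⟨g, hg⟩ := (h2 ⟨g, hg⟩).symm
    rw [h4, e, R.val_y w hyu, R.val_l w hld, hw ⟨⟨x, hx⟩, hxu⟩, mul_zero, zero_mul]
  rcases c.zirr F' h1 (D c.P) D_polyFun h3 with h5 | h5
  · refine R.inj ?_
    ext h
    rw [h2, h5 _ h.2]
    simp
  · exfalso
    have := h5 1 G.one_mem
    rw [Units.val_one, D_one c.grading] at this
    exact one_ne_zero this

/-- the evaluations at upper unipotent elements -/
noncomputable def RepD.evp (x : NP c) : (Fin R.d → ℝ) →ₗ[ℝ] ℝ :=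
  (LinearMap.proj (x : G)) ∘ₗ R.val

lemma RepD.evp_sep (w : Fin R.d → ℝ) (hw : ∀ x : NP c, R.evp x w = 0) : w = 0 :=
  R.sep w hw

omit R in
lemma exists_tor {m : ι → ℝ} (hm : m ∈ c.C) : ∃ a : G, ((a : (Op N)ˣ) : Op N) = tor c.P m := by
  obtain ⟨g, hg, hgm⟩ := c.C_exp m hm
  exact ⟨⟨g, hg⟩, hgm⟩

omit R in
lemma conj_mem {m : ι → ℝ} {a x : G} (ha : ((a : (Op N)ˣ) : Op N) = tor c.P m)
    (hx : x ∈ NP c) : a⁻¹ * x * a ∈ NP c ∧
      (((a⁻¹ * x * a : G) : (Op N)ˣ) : Op N) = cj c.P m ((x : (Op N)ˣ) : Op N) := by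
  have hd : Diag c.P ((a : (Op N)ˣ) : Op N) := by rw [ha]; exact tor_diag c.grading m
  constructor
  · have h1 := Unip.conj (l := ((a⁻¹ : G) : (Op N)ˣ)) hx (Diag.inv hd)
    have h2 : ((((a⁻¹ : G) : (Op N)ˣ)⁻¹ : (Op N)ˣ) : Op N) = ((a : (Op N)ˣ) : Op N) := by
      rw [Subgroup.coe_inv, inv_inv]
    rw [h2] at h1
    exact h1
  · have h1 : ((a : (Op N)ˣ) : Op N) * (((a⁻¹ * x * a : G) : (Op N)ˣ) : Op N) =
        ((a : (Op N)ˣ) : Op N) * cj c.P m ((x : (Op N)ˣ) : Op N) := by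
      have e1 : a * (a⁻¹ * x * a) = x * a := by group
      have e2 : ((a : (Op N)ˣ) : Op N) * (((a⁻¹ * x * a : G) : (Op N)ˣ) : Op N) =
          (((x * a : G) : (Op N)ˣ) : Op N) := by
        rw [← e1]; rfl
      rw [e2]
      change ((x : (Op N)ˣ) : Op N) * ((a : (Op N)ˣ) : Op N) = _
      rw [ha, tor_cj c.grading]
    have h2 := congrArg ((((a : (Op N)ˣ)⁻¹ : (Op N)ˣ) : Op N) * ·) h1
    simpa [← mul_assoc] using h2

/-- normalized action of a torus element -/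
noncomputable def RepD.B (a : G) : (Fin R.d → ℝ) →L[ℝ] (Fin R.d → ℝ) :=
  (D c.P ((a : (Op N)ˣ) : Op N))⁻¹ • R.ρ a

lemma RepD.B_val {m : ι → ℝ} {a : G} (ha : ((a : (Op N)ˣ) : Op N) = tor c.P m)
    (w : Fin R.d → ℝ) (x : NP c) :
    R.evp x (R.B a w) = R.val w (a⁻¹ * (x : G) * a) := by
  have hd : Diag c.P ((a : (Op N)ˣ) : Op N) := by rw [ha]; exact tor_diag c.grading m
  change R.val ((D c.P ((a : (Op N)ˣ) : Op N))⁻¹ • R.ρ a w) x = _
  rw [map_smul, Pi.smul_apply, R.hr]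
  have e1 : (x : G) * a = a * (a⁻¹ * x * a) := by group
  rw [e1, R.val_l w hd, smul_eq_mul, ← mul_assoc, inv_mul_cancel₀ (D_diag_ne c hd), one_mul]

lemma RepD.B_w0 {m : ι → ℝ} {a : G} (ha : ((a : (Op N)ˣ) : Op N) = tor c.P m) :
    R.B a R.w0 = R.w0 := by
  rw [← sub_eq_zero]
  refine R.evp_sep _ fun x => ?_
  rw [map_sub, R.B_val ha, R.h0, (conj_mem ha x.2).2, sub_eq_zero]
  change _ = R.val R.w0 x
  have h1 := (conj_mem ha x.2).1
  rw [R.h0, ← (conj_mem ha x.2).2, D_upper c h1, D_upper c x.2]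

omit R in
lemma one_mem_NP : (1 : G) ∈ NP c := by
  change Unip c.P (fun i j => c.r j i) (((1 : G) : (Op N)ˣ) : Op N)
  exact Unip.one c.grading

lemma RepD.w0_one : R.val R.w0 1 = 1 := by
  rw [R.h0]
  exact D_one c.grading

/-- the limit of the normalized action of `exp (n μ)` -/
noncomputable def RepD.p : (Fin R.d → ℝ) →L[ℝ] (Fin R.d → ℝ) :=
  (LinearMap.toContinuousLinearMap ((LinearMap.proj (1 : G)) ∘ₗ R.val)).smulRight R.w0

lemma RepD.p_apply (w : Fin R.d → ℝ) : R.p w = R.val w 1 • R.w0 := rfl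

lemma RepD.exists_p : ∃ a : ℕ → G, Tendsto (fun n => R.B (a n)) atTop (𝓝 R.p) := by
  have hmem : ∀ n : ℕ, ((n : ℝ) • c.μ) ∈ c.C := fun n => c.μ_mem n (Nat.cast_nonneg n)
  choose a ha using fun n => exists_tor (c := c) (hmem n)
  refine ⟨a, coef_tendsto R.evp_sep fun w x => ?_⟩
  simp only [R.B_val (ha _)]
  obtain ⟨F', h1, h2⟩ := R.hp w
  have e : ∀ n, R.val w ((a n)⁻¹ * (x : G) * a n) =
      F' (cj c.P ((n : ℝ) • c.μ) (((x : G) : (Op N)ˣ) : Op N)) := fun n => by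
    rw [h2, (conj_mem (ha n) x.2).2]
  simp only [e]
  have h3 : Tendsto (fun n : ℕ => cj c.P ((n : ℝ) • c.μ) (((x : G) : (Op N)ˣ) : Op N)) atTop
      (𝓝 1) := by
    refine cj_tendsto c.grading x.2 fun i j hij => ?_
    have hlt : c.μ j - c.μ i < 0 := by
      have := c.μ_mono (c.r_lt j i hij)
      linarith
    have h4 : Tendsto (fun n : ℕ => (n : ℝ) * (c.μ j - c.μ i)) atTop atBot :=
      tendsto_natCast_atTop_atTop.atTop_mul_const_of_neg hlt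
    refine (Real.tendsto_exp_atBot.comp h4).congr fun n => ?_
    simp only [Function.comp, Pi.smul_apply, smul_eq_mul]
    congr 1
    ring
  have h5 : R.evp x (R.p w) = F' 1 := by
    change R.val (R.val w 1 • R.w0) x = _
    rw [map_smul, Pi.smul_apply, R.h0, D_upper c x.2, smul_eq_mul, mul_one, h2]
    rfl
  rw [h5]
  exact ((PolyFun.continuous h1).tendsto 1).comp h3

lemma RepD.irr (U : Submodule ℝ (Fin R.d → ℝ)) (hU : ∀ g, ∀ v ∈ U, R.ρ g v ∈ U) :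
    U = ⊥ ∨ U = ⊤ := by
  by_cases hb : U = ⊥
  · exact Or.inl hb
  right
  obtain ⟨w, hw, hw0⟩ := (Submodule.ne_bot_iff U).1 hb
  have h1 : ∃ g, R.val w g ≠ 0 := by
    by_contra hcon
    push Not at hcon
    apply hw0
    refine R.inj ?_
    ext g
    rw [hcon g]
    simp
  obtain ⟨g, hg⟩ := h1
  have h2 : R.val (R.ρ g w) 1 ≠ 0 := by rwa [R.hr, one_mul]
  have h3 : R.ρ g w ∈ U := hU g w hw
  obtain ⟨a, ha⟩ := R.exists_p
  have h4 : Tendsto (fun n => R.B (a n) (R.ρ g w)) atTop (𝓝 (R.p (R.ρ g w))) := by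
    have hc : Continuous fun A : (Fin R.d → ℝ) →L[ℝ] (Fin R.d → ℝ) => A (R.ρ g w) :=
      (ContinuousLinearMap.apply ℝ (Fin R.d → ℝ) (R.ρ g w)).continuous
    exact (hc.tendsto _).comp ha
  have h5 : R.p (R.ρ g w) ∈ U := by
    refine (Submodule.closed_of_finiteDimensional U).mem_of_tendsto h4
      (Eventually.of_forall fun n => ?_)
    exact U.smul_mem _ (hU _ _ h3)
  rw [R.p_apply] at h5
  have h6 : R.w0 ∈ U := by
    have := U.smul_mem (R.val (R.ρ g w) 1)⁻¹ h5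
    rwa [smul_smul, inv_mul_cancel₀ h2, one_smul] at this
  exact R.hspan U fun g => hU g _ h6

lemma RepD.exists_seq {S : Subgroup (Op N)ˣ} (hS : S ≤ G) (hz : ZDense (S : Set (Op N)ˣ) G) :
    ∃ (s : ℕ → G) (e : ℕ → ℝ) (p : (Fin R.d → ℝ) →L[ℝ] (Fin R.d → ℝ)),
      (∀ n, ((s n : G) : (Op N)ˣ) ∈ S) ∧
      Tendsto (fun n => e n • R.ρ (s n)) atTop (𝓝 p) ∧ p ≠ 0 ∧
      Module.finrank ℝ (LinearMap.range (p : (Fin R.d → ℝ) →ₗ[ℝ] (Fin R.d → ℝ))) ≤ 1 := by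
  obtain ⟨a, ha⟩ := R.exists_p
  have := exists_rank_one_limit R.ρ (S.subgroupOf G) ?_ R.irr
    ⟨a, fun n => (D c.P (((a n) : (Op N)ˣ) : Op N))⁻¹, R.p, ha, ?_, ?_⟩
  · obtain ⟨s, e, p, h1, h2, h3, h4⟩ := this
    exact ⟨s, e, p, fun n => Subgroup.mem_subgroupOf.1 (h1 n), h2, h3, h4⟩
  · intro F hF hFS g
    obtain ⟨F', h1, h2⟩ := rho_poly R.inj R.hr R.hp hF
    rw [h2]
    refine hz F' h1 (fun s hs => ?_) _ g.2
    have h3 := hFS ⟨s, hS hs⟩ (Subgroup.mem_subgroupOf.2 hs)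
    rw [h2] at h3
    exact h3
  · intro h0
    have h1 : R.p R.w0 = 0 := by rw [h0]; rfl
    rw [R.p_apply, R.w0_one, one_smul] at h1
    have h2 := R.w0_one
    rw [h1, map_zero] at h2
    exact zero_ne_one h2
  · have h1 : LinearMap.range (R.p : (Fin R.d → ℝ) →ₗ[ℝ] (Fin R.d → ℝ)) ≤
        Submodule.span ℝ {R.w0} := by
      rintro _ ⟨w, rfl⟩
      exact Submodule.mem_span_singleton.2 ⟨R.val w 1, rfl⟩
    exact (Submodule.finrank_mono h1).trans ((finrank_span_le_card _).trans (by simp))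

omit R in
/-- the range is spanned by one vector -/
lemma rank_one_form {d : ℕ} {p : (Fin d → ℝ) →L[ℝ] (Fin d → ℝ)}
    (h : Module.finrank ℝ (LinearMap.range (p : (Fin d → ℝ) →ₗ[ℝ] (Fin d → ℝ))) ≤ 1) :
    ∃ v, ∀ w, ∃ t : ℝ, p w = t • v := by
  obtain ⟨v, hv⟩ := finrank_le_one_iff.1 h
  refine ⟨(v : Fin d → ℝ), fun w => ?_⟩
  obtain ⟨t, ht⟩ := hv ⟨p w, ⟨w, rfl⟩⟩
  exact ⟨t, (congrArg Subtype.val ht).symm⟩

omit R in
lemma cj_mem_ball {m : ι → ℝ} (hm : m ∈ c.C) {x : Op N}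
    (hx : Unip c.P (fun i j => c.r j i) x) :
    cj c.P m x ∈ Metric.closedBall (0 : Op N) (∑ i, ∑ j, ‖c.P i * x * c.P j‖) := by
  rw [mem_closedBall_zero_iff]
  exact cj_norm_le (c.C_le m hm) hx

/-- Convergence of the normalized torus part. -/
lemma RepD.torus_limit {s : ℕ → G} {e : ℕ → ℝ} {p : (Fin R.d → ℝ) →L[ℝ] (Fin R.d → ℝ)}
    (hp : Tendsto (fun n => e n • R.ρ (s n)) atTop (𝓝 p)) (hp0 : p ≠ 0)
    (hp1 : Module.finrank ℝ (LinearMap.range (p : (Fin R.d → ℝ) →ₗ[ℝ] (Fin R.d → ℝ))) ≤ 1)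
    {k k' a : ℕ → G} {m : ℕ → ι → ℝ} (hm : ∀ n, m n ∈ c.C)
    (ha : ∀ n, (((a n) : (Op N)ˣ) : Op N) = tor c.P (m n)) (hs : ∀ n, s n = k n * a n * k' n)
    (ho : ∀ n, star (((k n) : (Op N)ˣ) : Op N) * (((k n) : (Op N)ˣ) : Op N) = 1)
    (ho' : ∀ n, star (((k' n) : (Op N)ˣ) : Op N) * (((k' n) : (Op N)ˣ) : Op N) = 1) :
    ∃ φ : ℕ → ℕ, StrictMono φ ∧ Tendsto (fun n => R.B (a (φ n))) atTop (𝓝 R.p) := by
  obtain ⟨u, hu, huo, φ₁, hφ₁, hlim₁⟩ := orth_subseq c.closed (fun n => (k n).2) ho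
  obtain ⟨u', hu', huo', φ₂, hφ₂, hlim₂⟩ := orth_subseq c.closed (fun n => (k' (φ₁ n)).2)
    (fun n => ho' (φ₁ n))
  -- boundedness
  have hbd : ∀ w, ∀ x : NP c, ∃ C : ℝ, ∀ n, |R.evp x (R.B (a (φ₁ (φ₂ n))) w)| ≤ C := by
    intro w x
    obtain ⟨F', h1, h2⟩ := R.hp w
    obtain ⟨C, hC⟩ := (isCompact_closedBall (0 : Op N)
      (∑ i, ∑ j, ‖c.P i * (((x : G) : (Op N)ˣ) : Op N) * c.P j‖)).exists_bound_of_continuousOn
      (PolyFun.continuous h1).continuousOn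
    refine ⟨C, fun n => ?_⟩
    rw [R.B_val (ha _), h2, (conj_mem (ha _) x.2).2]
    exact hC _ (cj_mem_ball (hm _) x.2)
  obtain ⟨Bi, ψ, hψ, hBi⟩ := coef_subseq R.evp_sep (A := fun n => R.B (a (φ₁ (φ₂ n)))) hbd
  refine ⟨fun n => φ₁ (φ₂ (ψ n)), hφ₁.comp (hφ₂.comp hψ), ?_⟩
  have hBi' : Tendsto (fun n => R.B (a (φ₁ (φ₂ (ψ n))))) atTop (𝓝 Bi) := hBi
  suffices hBp : Bi = R.p by rwa [← hBp]
  -- inverses of the orthogonal parts
  have hinv : ∀ {g : G}, star ((g : (Op N)ˣ) : Op N) * ((g : (Op N)ˣ) : Op N) = 1 →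
      (((g⁻¹ : G) : (Op N)ˣ) : Op N) = star ((g : (Op N)ˣ) : Op N) := by
    intro g hg
    have h1 : ((g : (Op N)ˣ) : Op N) * (((g⁻¹ : G) : (Op N)ˣ) : Op N) = 1 := by
      rw [← Units.val_mul, ← Subgroup.coe_mul, mul_inv_cancel]
      rfl
    calc (((g⁻¹ : G) : (Op N)ˣ) : Op N)
        = (star ((g : (Op N)ˣ) : Op N) * ((g : (Op N)ˣ) : Op N)) *
          (((g⁻¹ : G) : (Op N)ˣ) : Op N) := by rw [hg, one_mul]
      _ = star ((g : (Op N)ˣ) : Op N) := by rw [mul_assoc, h1, mul_one]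
  have t1 : Tendsto (fun n => R.ρ ((k (φ₁ (φ₂ (ψ n))))⁻¹)) atTop (𝓝 (R.ρ (⟨u, hu⟩⁻¹ : G))) := by
    refine rho_tendsto R.inj R.hr R.hp ?_
    rw [hinv (g := ⟨u, hu⟩) huo]
    have h1 : (fun n => ((((k (φ₁ (φ₂ (ψ n))))⁻¹ : G) : (Op N)ˣ) : Op N)) =
        fun n => star (((k (φ₁ (φ₂ (ψ n)))) : (Op N)ˣ) : Op N) := by
      ext1 n
      exact hinv (ho _)
    rw [h1]
    have h2 := (continuous_star.tendsto (u : Op N)).comp
      (hlim₁.comp (hφ₂.comp hψ).tendsto_atTop)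
    exact h2
  have t2 : Tendsto (fun n => R.ρ ((k' (φ₁ (φ₂ (ψ n))))⁻¹)) atTop (𝓝 (R.ρ (⟨u', hu'⟩⁻¹ : G))) := by
    refine rho_tendsto R.inj R.hr R.hp ?_
    rw [hinv (g := ⟨u', hu'⟩) huo']
    have h1 : (fun n => ((((k' (φ₁ (φ₂ (ψ n))))⁻¹ : G) : (Op N)ˣ) : Op N)) =
        fun n => star (((k' (φ₁ (φ₂ (ψ n)))) : (Op N)ˣ) : Op N) := by
      ext1 n
      exact hinv (ho' _)
    rw [h1]
    have h2 := (continuous_star.tendsto (u' : Op N)).comp (hlim₂.comp hψ.tendsto_atTop)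
    exact h2
  have hmono : StrictMono fun n => φ₁ (φ₂ (ψ n)) := hφ₁.comp (hφ₂.comp hψ)
  have t3 : Tendsto (fun n => e (φ₁ (φ₂ (ψ n))) • R.ρ (s (φ₁ (φ₂ (ψ n))))) atTop (𝓝 p) :=
    hp.comp hmono.tendsto_atTop
  set q := R.ρ (⟨u, hu⟩⁻¹ : G) * p * R.ρ (⟨u', hu'⟩⁻¹ : G) with hq
  have t4 : Tendsto (fun n => (e (φ₁ (φ₂ (ψ n))) *
      D c.P (((a (φ₁ (φ₂ (ψ n)))) : (Op N)ˣ) : Op N)) • R.B (a (φ₁ (φ₂ (ψ n))))) atTop (𝓝 q) := by
    refine ((t1.mul t3).mul t2).congr fun n => ?_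
    set j := φ₁ (φ₂ (ψ n))
    have hd : Diag c.P (((a j) : (Op N)ˣ) : Op N) := by rw [ha]; exact tor_diag c.grading _
    have hD := D_diag_ne c hd
    have h1 : R.ρ (s j) = R.ρ (k j) * R.ρ (a j) * R.ρ (k' j) := by rw [hs, map_mul, map_mul]
    have h2 : R.ρ ((k j)⁻¹) * R.ρ (k j) = 1 := by rw [← map_mul, inv_mul_cancel, map_one]
    have h3 : R.ρ (k' j) * R.ρ ((k' j)⁻¹) = 1 := by rw [← map_mul, mul_inv_cancel, map_one]
    have h4 : R.ρ ((k j)⁻¹) * (e j • R.ρ (s j)) * R.ρ ((k' j)⁻¹) = e j • R.ρ (a j) := by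
      rw [h1]
      refine ContinuousLinearMap.ext fun w => ?_
      have h2' : ∀ v, R.ρ ((k j)⁻¹) (R.ρ (k j) v) = v := fun v =>
        congrArg (fun A : (Fin R.d → ℝ) →L[ℝ] (Fin R.d → ℝ) => A v) h2
      have h3' : ∀ v, R.ρ (k' j) (R.ρ ((k' j)⁻¹) v) = v := fun v =>
        congrArg (fun A : (Fin R.d → ℝ) →L[ℝ] (Fin R.d → ℝ) => A v) h3
      change R.ρ ((k j)⁻¹) (e j • R.ρ (k j) (R.ρ (a j) (R.ρ (k' j) (R.ρ ((k' j)⁻¹) w)))) =
        e j • R.ρ (a j) w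
      rw [h3', map_smul, h2']
    rw [h4, RepD.B, smul_smul, mul_assoc, mul_inv_cancel₀ hD, mul_one]
  have hq0 : q ≠ 0 := by
    intro h0
    apply hp0
    have h2 : R.ρ (⟨u, hu⟩ : G) * R.ρ (⟨u, hu⟩⁻¹ : G) = 1 := by
      rw [← map_mul, mul_inv_cancel, map_one]
    have h3 : R.ρ (⟨u', hu'⟩⁻¹ : G) * R.ρ (⟨u', hu'⟩ : G) = 1 := by
      rw [← map_mul, inv_mul_cancel, map_one]
    calc p = (R.ρ (⟨u, hu⟩ : G) * R.ρ (⟨u, hu⟩⁻¹ : G)) * p *
          (R.ρ (⟨u', hu'⟩⁻¹ : G) * R.ρ (⟨u', hu'⟩ : G)) := by rw [h2, h3, one_mul, mul_one]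
      _ = R.ρ (⟨u, hu⟩ : G) * q * R.ρ (⟨u', hu'⟩ : G) := by rw [hq]; simp only [mul_assoc]
      _ = 0 := by rw [h0, mul_zero, zero_mul]
  obtain ⟨v, hv⟩ := rank_one_form hp1
  have hqv : ∀ w, ∃ t : ℝ, q w = t • R.ρ (⟨u, hu⟩⁻¹ : G) v := by
    intro w
    obtain ⟨t, ht⟩ := hv (R.ρ (⟨u', hu'⟩⁻¹ : G) w)
    refine ⟨t, ?_⟩
    change R.ρ (⟨u, hu⟩⁻¹ : G) (p (R.ρ (⟨u', hu'⟩⁻¹ : G) w)) = _
    rw [ht, map_smul]
  -- values at the identity
  have happ : ∀ {A : ℕ → ((Fin R.d → ℝ) →L[ℝ] (Fin R.d → ℝ))}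
      {A' : (Fin R.d → ℝ) →L[ℝ] (Fin R.d → ℝ)}, Tendsto A atTop (𝓝 A') →
      ∀ w, ∀ x : NP c, Tendsto (fun n => R.evp x (A n w)) atTop (𝓝 (R.evp x (A' w))) :=
    fun h w x => coef_apply_tendsto R.evp h w x
  let x1 : NP c := ⟨1, one_mem_NP⟩
  have hBval : ∀ w, R.evp x1 (Bi w) = R.val w 1 := by
    intro w
    refine tendsto_nhds_unique (happ hBi' w x1) ?_
    have : ∀ n, R.evp x1 (R.B (a (φ₁ (φ₂ (ψ n)))) w) = R.val w 1 := by
      intro n
      have e5 : (a (φ₁ (φ₂ (ψ n))))⁻¹ * (x1 : G) * a (φ₁ (φ₂ (ψ n))) = 1 := by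
        change (a (φ₁ (φ₂ (ψ n))))⁻¹ * 1 * a (φ₁ (φ₂ (ψ n))) = 1
        group
      rw [R.B_val (ha _), e5]
    simp only [this]
    exact tendsto_const_nhds
  have hBw0 : Bi R.w0 = R.w0 := by
    have hc : Continuous fun A : (Fin R.d → ℝ) →L[ℝ] (Fin R.d → ℝ) => A R.w0 :=
      (ContinuousLinearMap.apply ℝ (Fin R.d → ℝ) R.w0).continuous
    refine tendsto_nhds_unique ((hc.tendsto _).comp hBi') ?_
    refine tendsto_const_nhds.congr fun n => ?_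
    exact (R.B_w0 (ha _)).symm
  -- the scalars converge
  set lam := R.evp x1 (q R.w0) with hlam
  have hg : Tendsto (fun n => e (φ₁ (φ₂ (ψ n))) *
      D c.P (((a (φ₁ (φ₂ (ψ n)))) : (Op N)ˣ) : Op N)) atTop (𝓝 lam) := by
    refine (happ t4 R.w0 x1).congr fun n => ?_
    change R.evp x1 ((e (φ₁ (φ₂ (ψ n))) *
      D c.P (((a (φ₁ (φ₂ (ψ n)))) : (Op N)ˣ) : Op N)) • R.B (a (φ₁ (φ₂ (ψ n)))) R.w0) = _
    rw [R.B_w0 (ha _), map_smul]
    change _ • R.val R.w0 1 = _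
    rw [R.w0_one, smul_eq_mul, mul_one]
  have hqB : q = lam • Bi := tendsto_nhds_unique t4 (hg.smul hBi')
  have hlam0 : lam ≠ 0 := by
    intro h0
    rw [h0, zero_smul] at hqB
    exact hq0 hqB
  refine ContinuousLinearMap.ext fun w => ?_
  obtain ⟨t0, ht0⟩ := hqv R.w0
  obtain ⟨t, ht⟩ := hqv w
  set v' := R.ρ (⟨u, hu⟩⁻¹ : G) v
  have e0 : R.w0 = (lam⁻¹ * t0) • v' := by
    have : q R.w0 = lam • R.w0 := by
      rw [hqB]
      change lam • Bi R.w0 = _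
      rw [hBw0]
    rw [mul_smul, ← ht0, this, smul_smul, inv_mul_cancel₀ hlam0, one_smul]
  have e1 : Bi w = (lam⁻¹ * t) • v' := by
    have : q w = lam • Bi w := by
      rw [hqB]
      rfl
    rw [mul_smul, ← ht, this, smul_smul, inv_mul_cancel₀ hlam0, one_smul]
  have ht00 : lam⁻¹ * t0 ≠ 0 := by
    intro h0
    rw [h0, zero_smul] at e0
    have h2 := R.w0_one
    rw [e0, map_zero] at h2
    exact zero_ne_one h2
  have e2 : Bi w = ((lam⁻¹ * t) * (lam⁻¹ * t0)⁻¹) • R.w0 := by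
    rw [e1]
    conv_rhs => rw [e0]
    rw [smul_smul, mul_assoc, inv_mul_cancel₀ ht00, mul_one]
  have e3 := hBval w
  rw [e2, map_smul] at e3
  have e4 : R.evp x1 R.w0 = 1 := R.w0_one
  rw [e4, smul_eq_mul, mul_one] at e3
  rw [e2, e3, R.p_apply]

omit R [Fintype ι] [LinearOrder ι] in
lemma unip_of_tendsto {P : ι → Op N} {r : ι → ι → Prop} {T : ℕ → Op N} {T' : Op N}
    (hT : ∀ n, Unip P r (T n)) (h : Tendsto T atTop (𝓝 T')) : Unip P r T' := by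
  have hc : ∀ i j, Tendsto (fun n => P i * T n * P j) atTop (𝓝 (P i * T' * P j)) := fun i j =>
    (tendsto_const_nhds.mul h).mul tendsto_const_nhds
  constructor
  · intro i
    refine tendsto_nhds_unique (hc i i) (tendsto_const_nhds.congr fun n => ((hT n).1 i).symm)
  · intro i j hij hn
    refine tendsto_nhds_unique (hc i j) (tendsto_const_nhds.congr fun n =>
      ((hT n).2 i j hij hn).symm)

/-- If the normalized torus part converges to `p`, conjugation contracts the unipotent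
elements. -/
lemma RepD.contract {a : ℕ → G} {m : ℕ → ι → ℝ} (hm : ∀ n, m n ∈ c.C)
    (ha : ∀ n, (((a n) : (Op N)ˣ) : Op N) = tor c.P (m n))
    (hB : Tendsto (fun n => R.B (a n)) atTop (𝓝 R.p)) (x : NP c) :
    Tendsto (fun n => cj c.P (m n) (((x : G) : (Op N)ˣ) : Op N)) atTop (𝓝 1) := by
  refine tendsto_of_subseq_tendsto fun ns hns => ?_
  obtain ⟨T, -, ms, hms, hT⟩ := tendsto_subseq_of_bounded
    (Metric.isBounded_closedBall (x := (0 : Op N))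
      (r := ∑ i, ∑ j, ‖c.P i * (((x : G) : (Op N)ˣ) : Op N) * c.P j‖))
    (x := fun n => cj c.P (m (ns n)) (((x : G) : (Op N)ˣ) : Op N))
    (fun n => cj_mem_ball (hm _) x.2)
  refine ⟨ms, ?_⟩
  have hz : ∀ n, (((((a (ns (ms n)))⁻¹ * (x : G) * a (ns (ms n)) : G)) : (Op N)ˣ) : Op N) =
      cj c.P (m (ns (ms n))) (((x : G) : (Op N)ˣ) : Op N) := fun n => (conj_mem (ha _) x.2).2
  have hT' : Tendsto (fun n => cj c.P (m (ns (ms n))) (((x : G) : (Op N)ˣ) : Op N)) atTop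
      (𝓝 T) := hT
  have hTu : Unip c.P (fun i j => c.r j i) T := by
    refine unip_of_tendsto (fun n => ?_) hT'
    rw [← hz]
    exact (conj_mem (ha _) x.2).1
  have hunit : IsUnit T :=
    hTu.isUnit c.grading (fun i j k h h' => c.r_trans k j i h' h) (r_irrefl c)
  obtain ⟨u, hu, huT⟩ := mem_of_tendsto c.closed
    (fun n => ((a (ns (ms n)))⁻¹ * (x : G) * a (ns (ms n)) : G).2) hunit
    (hT'.congr fun n => (hz n).symm)
  -- all functions agree at `u` and `1`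
  have hval : ∀ w, R.val w ⟨u, hu⟩ = R.val w 1 := by
    intro w
    obtain ⟨F', h1, h2⟩ := R.hp w
    have h3 : Tendsto (fun n => R.evp x (R.B (a (ns (ms n))) w)) atTop (𝓝 (R.evp x (R.p w))) :=
      coef_apply_tendsto R.evp (hB.comp (hns.comp hms.tendsto_atTop)) w x
    have h4 : Tendsto (fun n => R.evp x (R.B (a (ns (ms n))) w)) atTop (𝓝 (F' T)) := by
      refine (((PolyFun.continuous h1).tendsto T).comp hT').congr fun n => ?_
      rw [R.B_val (ha _), h2, hz]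
      rfl
    have h5 : R.evp x (R.p w) = R.val w 1 := by
      change R.val (R.val w 1 • R.w0) x = _
      rw [map_smul, Pi.smul_apply, R.h0, D_upper c x.2, smul_eq_mul, mul_one]
    rw [h5] at h3
    rw [h2 ⟨u, hu⟩]
    change F' (u : Op N) = _
    rw [huT]
    exact tendsto_nhds_unique h4 h3
  have hus : star u ∈ G := c.star_mem u hu
  have h6 := hval (R.ρ ⟨star u, hus⟩ R.w0)
  rw [R.hr, R.hr, R.h0, R.h0, one_mul] at h6
  have h7 : ((((⟨u, hu⟩ * ⟨star u, hus⟩ : G)) : (Op N)ˣ) : Op N) = T * star T := by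
    rw [← huT]
    rfl
  have h8 : (((⟨star u, hus⟩ : G) : (Op N)ˣ) : Op N) = star T := by
    rw [← huT]
    rfl
  rw [h7, h8, D_unip (s := c.r) c.grading c.r_trans (r_irrefl c) (star_unip c.star_P hTu)] at h6
  have h9 : T = 1 := eq_one_of_D c.grading c.star_P
    (hTu.mono (s' := fun i j => j < i) fun i j h => c.r_lt j i h) h6
  rw [h9] at hT'
  exact hT'

end Lox

open Lox Filter Topology in
open scoped Topology in
/-- A Zariski dense subgroup contains a sequence whose Cartan projections go to infinity away from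
the walls. -/
theorem Cell.exists_seq {N : ℕ} {G : Subgroup (Op N)ˣ} {ι : Type} [Fintype ι] [LinearOrder ι]
    (c : Cell G ι) {S : Subgroup (Op N)ˣ} (hS : S ≤ G) (hz : ZDense (S : Set (Op N)ˣ) G) :
    ∃ (γ k k' : ℕ → (Op N)ˣ) (m : ℕ → ι → ℝ), (∀ n, γ n ∈ S ∧ k n ∈ G ∧ k' n ∈ G ∧ m n ∈ c.C ∧
      star (k n : Op N) * k n = 1 ∧ star (k' n : Op N) * k' n = 1 ∧
      (γ n : Op N) = k n * (∑ i, Real.exp (m n i) • c.P i) * k' n) ∧
      ∀ i j, c.r i j → Tendsto (fun n => m n j - m n i) atTop atTop := by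
  obtain ⟨R⟩ := nonempty_repD G (F := D c.P) D_polyFun
  obtain ⟨s, e, p, hsS, hlim, hp0, hp1⟩ := R.exists_seq hS hz
  have hkak := fun n => c.kak ((s n : G) : (Op N)ˣ) (s n).2
  choose k hk k' hk' m hm ho ho' hs using hkak
  choose a ha using fun n => exists_tor (c := c) (hm n)
  have hs' : ∀ n, s n = (⟨k n, hk n⟩ : G) * a n * (⟨k' n, hk' n⟩ : G) := by
    intro n
    refine Subtype.ext (Units.ext ?_)
    change (((s n : G) : (Op N)ˣ) : Op N) = (k n : Op N) * (((a n) : (Op N)ˣ) : Op N) * k' n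
    rw [hs n, ha n]
    rfl
  obtain ⟨φ, hφ, hB⟩ := R.torus_limit hlim hp0 hp1 (k := fun n => ⟨k n, hk n⟩)
    (k' := fun n => ⟨k' n, hk' n⟩) hm ha hs' ho ho'
  have hcon := fun x => R.contract (fun n => hm (φ n)) (fun n => ha (φ n)) hB x
  refine ⟨fun n => ((s (φ n) : G) : (Op N)ˣ), fun n => k (φ n), fun n => k' (φ n),
    fun n => m (φ n), fun n => ⟨hsS _, hk _, hk' _, hm _, ho _, ho' _, hs _⟩, ?_⟩
  obtain ⟨c0, hc0, hroot⟩ := c.C_root
  intro i j hij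
  rw [tendsto_atTop]
  intro b
  have hR : 0 ≤ max 0 (b / c0) := le_max_left _ _
  have hev : ∀ i' j', ∀ᶠ n in atTop, i' ≠ j' → (∃ x ∈ G, Unip c.P (fun i j => c.r j i)
      (x : Op N) ∧ c.P j' * (x : Op N) * c.P i' ≠ 0) → max 0 (b / c0) ≤ m (φ n) j' - m (φ n) i' := by
    intro i' j'
    by_cases hne : i' = j'
    · exact Eventually.of_forall fun n h => absurd hne h
    by_cases hx : ∃ x ∈ G, Unip c.P (fun i j => c.r j i) (x : Op N) ∧
        c.P j' * (x : Op N) * c.P i' ≠ 0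
    · obtain ⟨x, hxG, hxu, hx0⟩ := hx
      have h1 := hcon ⟨⟨x, hxG⟩, hxu⟩
      have h2 : Tendsto (fun n => c.P j' * cj c.P (m (φ n)) (x : Op N) * c.P i') atTop
          (𝓝 (c.P j' * 1 * c.P i')) := (tendsto_const_nhds.mul h1).mul tendsto_const_nhds
      rw [mul_one, c.grading.orth j' i' (Ne.symm hne)] at h2
      have h3 : Tendsto (fun n => Real.exp (m (φ n) i' - m (φ n) j') *
          ‖c.P j' * (x : Op N) * c.P i'‖) atTop (𝓝 0) := by
        have h4 := h2.norm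
        rw [norm_zero] at h4
        refine h4.congr fun n => ?_
        rw [P_cj_P c.grading, norm_smul, Real.norm_eq_abs, abs_of_pos (Real.exp_pos _)]
      have hpos : 0 < ‖c.P j' * (x : Op N) * c.P i'‖ := norm_pos_iff.2 hx0
      have h5 : ∀ᶠ n in atTop, Real.exp (m (φ n) i' - m (φ n) j') *
          ‖c.P j' * (x : Op N) * c.P i'‖ <
            Real.exp (-max 0 (b / c0)) * ‖c.P j' * (x : Op N) * c.P i'‖ :=
        h3.eventually_lt_const (mul_pos (Real.exp_pos _) hpos)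
      refine h5.mono fun n hn _ _ => ?_
      have h6 := lt_of_mul_lt_mul_right hn hpos.le
      have h7 := Real.exp_lt_exp.1 h6
      linarith
    · exact Eventually.of_forall fun n _ h => absurd h hx
  have hev' : ∀ᶠ n in atTop, ∀ i' j', i' ≠ j' → (∃ x ∈ G, Unip c.P (fun i j => c.r j i)
      (x : Op N) ∧ c.P j' * (x : Op N) * c.P i' ≠ 0) →
      max 0 (b / c0) ≤ m (φ n) j' - m (φ n) i' :=
    eventually_all.2 fun i' => eventually_all.2 fun j' => hev i' j'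
  refine hev'.mono fun n hn => ?_
  have h1 := hroot (m (φ n)) (hm _) _ hR hn i j hij
  have h2 : b ≤ c0 * max 0 (b / c0) := by
    have h3 : c0 * (b / c0) = b := by field_simp
    calc b = c0 * (b / c0) := h3.symm
      _ ≤ c0 * max 0 (b / c0) := mul_le_mul_of_nonneg_left (le_max_right _ _) hc0.le
  exact h2.trans h1

end Pool.Agent.Lib.MP_d9b062_al
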